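import Mathlib

/-!
# p-adic Taylor expansion of a simple root (polynomial form of the Hensel lemma)
-/

set_option autoImplicit false

open Polynomial

namespace Pool.Agent.Common_HIT

/-- Evaluation of a bivariate integer polynomial commutes with reduction mod `p`. -/
theorem cast_evalEval (p : ℕ) (g : ℤ[X][X]) (a y : ℤ) :
    ((evalEval a y g : ℤ) : ZMod p) =
      evalEval (a : ZMod p) (y : ZMod p) (g.map (mapRingHom (Int.castRingHom (ZMod p)))) := by
  have := map_mapRingHom_evalEval (Int.castRingHom (ZMod p)) a y (p := g)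
  simpa using this.symm

theorem dvd_evalEval_congr (p : ℕ) (g : ℤ[X][X]) {a a' y y' : ℤ}
    (ha : (p : ℤ) ∣ a - a') (hy : (p : ℤ) ∣ y - y') :
    (p : ℤ) ∣ evalEval a y g ↔ (p : ℤ) ∣ evalEval a' y' g := by
  have ha' : (a : ZMod p) = (a' : ZMod p) := by
    rw [← sub_eq_zero, ← Int.cast_sub]; exact (ZMod.intCast_zmod_eq_zero_iff_dvd _ _).2 ha
  have hy' : (y : ZMod p) = (y' : ZMod p) := by
    rw [← sub_eq_zero, ← Int.cast_sub]; exact (ZMod.intCast_zmod_eq_zero_iff_dvd _ _).2 hy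
  rw [← ZMod.intCast_zmod_eq_zero_iff_dvd, ← ZMod.intCast_zmod_eq_zero_iff_dvd, cast_evalEval,
    cast_evalEval, ha', hy']

theorem evalEval_congr (p : ℕ) (g : ℤ[X][X]) {a a' y y' : ℤ}
    (ha : (p : ℤ) ∣ a - a') (hy : (p : ℤ) ∣ y - y') :
    (p : ℤ) ∣ evalEval a y g - evalEval a' y' g := by
  have ha' : (a : ZMod p) = (a' : ZMod p) := by
    rw [← sub_eq_zero, ← Int.cast_sub]; exact (ZMod.intCast_zmod_eq_zero_iff_dvd _ _).2 ha
  have hy' : (y : ZMod p) = (y' : ZMod p) := by
    rw [← sub_eq_zero, ← Int.cast_sub]; exact (ZMod.intCast_zmod_eq_zero_iff_dvd _ _).2 hy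
  rw [← ZMod.intCast_zmod_eq_zero_iff_dvd, Int.cast_sub, cast_evalEval,
    cast_evalEval, ha', hy', sub_self]

theorem evalEval_eq_eval (g : ℤ[X][X]) (a y : ℤ) :
    evalEval a y g = (g.map (evalRingHom a)).eval y := (map_evalRingHom_eval a y g).symm

/-- Polynomial Hensel: a simple root mod `p` extends to a polynomial function that is a root
modulo `p ^ N` on the whole residue class. -/
theorem exists_taylor (g : ℤ[X][X]) (p : ℕ) [hp : Fact p.Prime] (t0 y0 : ℤ)
    (h0 : (p : ℤ) ∣ evalEval t0 y0 g) (h1 : ¬ (p : ℤ) ∣ evalEval t0 y0 (derivative g))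
    (N : ℕ) (hN : 1 ≤ N) :
    ∃ Ψ : ℤ[X], ∀ x : ℤ, (p : ℤ) ∣ x →
      ((p : ℤ) ∣ Ψ.eval x - y0) ∧ ((p : ℤ) ^ N ∣ evalEval (t0 + x) (Ψ.eval x) g) := by
  have hpp : Prime (p : ℤ) := Nat.prime_iff_prime_int.1 hp.out
  induction N, hN using Nat.le_induction with
  | base =>
    refine ⟨C y0, fun x hx => ⟨by simp, ?_⟩⟩
    rw [pow_one]
    refine (dvd_evalEval_congr p g (a' := t0) (y' := y0) ?_ ?_).2 h0
    · simpa using hx
    · simp
  | succ N hN ih =>
    obtain ⟨Ψ, hΨ⟩ := ih
    -- an inverse of the derivative mod p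
    obtain ⟨v, hv⟩ : ∃ v : ℤ, (p : ℤ) ∣ 1 - v * evalEval t0 y0 (derivative g) := by
      have hc : IsCoprime (p : ℤ) (evalEval t0 y0 (derivative g)) :=
        (Prime.coprime_iff_not_dvd hpp).2 h1
      obtain ⟨u, v, huv⟩ := hc
      exact ⟨v, ⟨u, by linear_combination -huv⟩⟩
    let E : ℤ[X] := (g.map (compRingHom (C t0 + X))).eval Ψ
    have hE : ∀ x : ℤ, E.eval x = evalEval (t0 + x) (Ψ.eval x) g := by
      intro x
      simp only [E]
      rw [evalEval_eq_eval, ← coe_evalRingHom, ← eval₂_hom, ← Polynomial.eval_map,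
        Polynomial.map_map]
      congr 1
      congr 1
      ext <;> simp
    refine ⟨Ψ - C v * E, fun x hx => ?_⟩
    obtain ⟨h2, h3⟩ := hΨ x hx
    set z := Ψ.eval x with hz
    set e := evalEval (t0 + x) z g with he
    have hev : (Ψ - C v * E).eval x = z - v * e := by
      simp [hE, ← hz, ← he]
    rw [hev]
    have hpe : (p : ℤ) ∣ e := dvd_trans (dvd_pow_self _ (by omega)) h3
    refine ⟨?_, ?_⟩
    · have : z - v * e - y0 = (z - y0) - v * e := by ring
      rw [this]
      exact dvd_sub h2 (Dvd.dvd.mul_left hpe v)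
    · obtain ⟨k, hk⟩ := (g.map (evalRingHom (t0 + x))).binomExpansion z (-(v * e))
      have h4 : evalEval (t0 + x) (z - v * e) g = e * (1 - v * evalEval (t0 + x) z (derivative g))
          + k * v ^ 2 * (e * e) := by
        rw [evalEval_eq_eval, sub_eq_add_neg, hk, he, evalEval_eq_eval, evalEval_eq_eval,
          ← derivative_map]
        ring
      rw [h4]
      have h5 : (p : ℤ) ∣ 1 - v * evalEval (t0 + x) z (derivative g) := by
        have h6 := evalEval_congr p (derivative g) (a := t0) (a' := t0 + x) (y := y0) (y' := z)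
          (by simpa using hx) (by rw [← dvd_neg]; simpa using h2)
        have : 1 - v * evalEval (t0 + x) z (derivative g) =
            (1 - v * evalEval t0 y0 (derivative g)) +
              v * (evalEval t0 y0 (derivative g) - evalEval (t0 + x) z (derivative g)) := by ring
        rw [this]
        exact dvd_add hv (Dvd.dvd.mul_left h6 v)
      refine dvd_add ?_ ?_
      · rw [pow_succ]; exact mul_dvd_mul h3 h5
      · rw [pow_succ]
        exact Dvd.dvd.mul_left (mul_dvd_mul h3 hpe) _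

/-- All integral roots in a smooth residue class are given by one polynomial of degree `< N`
modulo `p ^ N`. -/
theorem exists_taylor_coeffs (g : ℤ[X][X]) (p : ℕ) [hp : Fact p.Prime] (t0 y0 : ℤ)
    (h0 : (p : ℤ) ∣ evalEval t0 y0 g) (h1 : ¬ (p : ℤ) ∣ evalEval t0 y0 (derivative g))
    (N : ℕ) (hN : 1 ≤ N) :
    ∃ c : ℕ → ℤ, ∀ b y : ℤ, (p : ℤ) ∣ y - y0 → evalEval (t0 + p * b) y g = 0 →
      (p : ℤ) ^ N ∣ y - ∑ k ∈ Finset.range N, c k * ((p : ℤ) * b) ^ k := by
  have hpp : Prime (p : ℤ) := Nat.prime_iff_prime_int.1 hp.out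
  obtain ⟨Ψ, hΨ⟩ := exists_taylor g p t0 y0 h0 h1 N hN
  refine ⟨Ψ.coeff, fun b y hy hroot => ?_⟩
  obtain ⟨h2, h3⟩ := hΨ (p * b) (dvd_mul_right _ _)
  set z := Ψ.eval (p * b : ℤ) with hz
  -- uniqueness
  have h4 : (p : ℤ) ^ N ∣ y - z := by
    obtain ⟨k, hk⟩ := (g.map (evalRingHom (t0 + p * b))).binomExpansion z (y - z)
    rw [add_sub_cancel, ← evalEval_eq_eval, hroot, ← evalEval_eq_eval, derivative_map,
      ← evalEval_eq_eval] at hk
    have h5 : (y - z) * (evalEval (t0 + p * b) z (derivative g) + k * (y - z)) =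
        - evalEval (t0 + p * b) z g := by linear_combination -hk
    have h6 : (p : ℤ) ^ N ∣ (y - z) *
        (evalEval (t0 + p * b) z (derivative g) + k * (y - z)) := by
      rw [h5]; exact (dvd_neg).2 h3
    have hyz : (p : ℤ) ∣ y - z := by
      have : y - z = (y - y0) - (z - y0) := by ring
      rw [this]; exact dvd_sub hy h2
    have h7 : ¬ (p : ℤ) ∣ (evalEval (t0 + p * b) z (derivative g) + k * (y - z)) := by
      intro h
      have h8 : (p : ℤ) ∣ evalEval (t0 + p * b) z (derivative g) :=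
        (dvd_add_left (Dvd.dvd.mul_left hyz k)).1 h
      exact h1 ((dvd_evalEval_congr p (derivative g) (a := t0 + p * b) (a' := t0)
        (by simp) h2).1 h8)
    exact (Prime.pow_dvd_of_dvd_mul_right hpp N h7 h6)
  -- truncation
  have h9 : (p : ℤ) ^ N ∣ z - ∑ k ∈ Finset.range N, Ψ.coeff k * ((p : ℤ) * b) ^ k := by
    rw [hz, eval_eq_sum_range' (n := max N (Ψ.natDegree + 1)) (by omega)]
    rw [← Finset.sum_range_add_sum_Ico _ (le_max_left N (Ψ.natDegree + 1)), add_sub_cancel_left]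
    refine Finset.dvd_sum fun k hk => ?_
    rw [Finset.mem_Ico] at hk
    rw [mul_pow]
    exact Dvd.dvd.mul_left (Dvd.dvd.mul_right (pow_dvd_pow _ hk.1) _) _
  have : y - ∑ k ∈ Finset.range N, Ψ.coeff k * ((p : ℤ) * b) ^ k =
      (y - z) + (z - ∑ k ∈ Finset.range N, Ψ.coeff k * ((p : ℤ) * b) ^ k) := by ring
  rw [this]
  exact dvd_add h4 h9

end Pool.Agent.Common_HIT
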