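import Mathlib
import Pool.Agent.Common_HIT.Taylor

/-!
# The determinant method on one residue class
-/

set_option autoImplicit false

open Polynomial

namespace Pool.Agent.Common_HIT

/-- The interpolation matrix. -/
noncomputable def interpMat (N : ℕ) (t0 : ℤ) (a y : Fin (N + 1) → ℤ) :
    Matrix (Fin (N + 1)) (Fin (N + 1)) ℤ :=
  Matrix.of fun i k => if (k : ℕ) < N then (a i - t0) ^ (k : ℕ) else y i

theorem sum_range_id_eq (N : ℕ) : ∑ k ∈ Finset.range (N + 1), k = N * (N + 1) / 2 := by
  rw [Finset.sum_range_id, Nat.add_sub_cancel, mul_comm]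

theorem dvd_det_interpMat (N : ℕ) (p : ℕ) (t0 : ℤ) (b : Fin (N + 1) → ℤ) (y : Fin (N + 1) → ℤ)
    (c : ℕ → ℤ)
    (h : ∀ i, (p : ℤ) ^ N ∣ y i - ∑ k ∈ Finset.range N, c k * ((p : ℤ) * b i) ^ k) :
    (p : ℤ) ^ (N * (N + 1) / 2) ∣ (interpMat N t0 (fun i => t0 + p * b i) y).det := by
  choose z hz using h
  let M : Matrix (Fin (N + 1)) (Fin (N + 1)) ℤ :=
    Matrix.of fun i k => if (k : ℕ) < N then (b i) ^ (k : ℕ) else z i
  let U : Matrix (Fin (N + 1)) (Fin (N + 1)) ℤ :=
    Matrix.of fun l k => if (k : ℕ) < N then (if l = k then (p : ℤ) ^ (k : ℕ) else 0)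
      else (if (l : ℕ) < N then c l * (p : ℤ) ^ (l : ℕ) else (p : ℤ) ^ N)
  have hMU : interpMat N t0 (fun i => t0 + p * b i) y = M * U := by
    ext i k
    rw [Matrix.mul_apply]
    simp only [interpMat, M, U, Matrix.of_apply]
    by_cases hk : (k : ℕ) < N
    · simp only [hk, if_true]
      rw [Finset.sum_eq_single k]
      · simp [hk, mul_pow, mul_comm]
      · intro l _ hl; simp [hl]
      · simp
    · simp only [hk, if_false]
      rw [Fin.sum_univ_castSucc]
      simp only [Fin.val_castSucc, Fin.is_lt, if_true, Fin.val_last, lt_irrefl, if_false]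
      have h1 := hz i
      have h2 : ∑ k ∈ Finset.range N, c k * ((p : ℤ) * b i) ^ k =
          ∑ x : Fin N, b i ^ (x : ℕ) * (c x * (p : ℤ) ^ (x : ℕ)) := by
        rw [Finset.sum_range]
        refine Finset.sum_congr rfl fun x _ => ?_
        rw [mul_pow]; ring
      rw [← h2]
      linear_combination h1
  have hU : U.det = (p : ℤ) ^ (N * (N + 1) / 2) := by
    rw [Matrix.det_of_isUpperTriangular]
    · have : ∀ i : Fin (N + 1), U i i = (p : ℤ) ^ (i : ℕ) := by
        intro i
        simp only [U, Matrix.of_apply]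
        by_cases hi : (i : ℕ) < N
        · simp [hi]
        · have : (i : ℕ) = N := by omega
          simp [this]
      rw [Finset.prod_congr rfl (fun i _ => this i), Finset.prod_pow_eq_pow_sum,
        Fin.sum_univ_eq_sum_range (fun k => k) (N + 1), sum_range_id_eq]
    · intro i j hij
      simp only [U, Matrix.of_apply]
      have hij' : j < i := hij
      have hj : (j : ℕ) < N := by
        have h1 : (j : ℕ) < (i : ℕ) := hij'
        have h2 := i.2
        omega
      simp [hj, hij'.ne']
  rw [hMU, Matrix.det_mul, hU]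
  exact dvd_mul_left _ _

theorem abs_det_interpMat_le (N : ℕ) (t0 : ℤ) (a y : Fin (N + 1) → ℤ) (T Y : ℕ)
    (ha : ∀ i, |a i - t0| ≤ T) (hy : ∀ i, |y i| ≤ Y) :
    |(interpMat N t0 a y).det| ≤ (N + 1).factorial * ((T : ℤ) ^ (N * (N - 1) / 2) * Y) := by
  rw [Matrix.det_apply]
  refine (Finset.abs_sum_le_sum_abs _ _).trans ?_
  have hcard : (Finset.univ : Finset (Equiv.Perm (Fin (N + 1)))).card = (N + 1).factorial := by
    rw [Finset.card_univ, Fintype.card_perm, Fintype.card_fin]
  rw [← hcard, ← nsmul_eq_mul]
  refine Finset.sum_le_card_nsmul _ _ _ fun σ _ => ?_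
  have hsgn : |((Equiv.Perm.sign σ : ℤˣ) : ℤ)| = 1 := by
    rcases Int.units_eq_one_or (Equiv.Perm.sign σ) with h | h <;> simp [h]
  rw [Units.smul_def, smul_eq_mul, abs_mul, hsgn, one_mul, Finset.abs_prod,
    Fin.prod_univ_castSucc]
  refine mul_le_mul ?_ ?_ (abs_nonneg _) (by positivity)
  · have h1 : ∀ i : Fin N, |interpMat N t0 a y (σ i.castSucc) i.castSucc| ≤ (T : ℤ) ^ (i : ℕ) := by
      intro i
      simp only [interpMat, Matrix.of_apply, Fin.val_castSucc, Fin.is_lt, if_true]
      rw [abs_pow]
      exact pow_le_pow_left₀ (abs_nonneg _) (ha _) _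
    refine (Finset.prod_le_prod (fun i _ => abs_nonneg _) (fun i _ => h1 i)).trans ?_
    rw [Finset.prod_pow_eq_pow_sum, Fin.sum_univ_eq_sum_range (fun k => k) N,
      Finset.sum_range_id]
  · simp only [interpMat, Matrix.of_apply, Fin.val_last, lt_irrefl, if_false]
    exact hy _

/-- If the interpolation determinant vanishes then the last point lies on the interpolating
polynomial of the others. -/
theorem eval_eq_of_det_eq_zero (N : ℕ) (t0 : ℤ) (a y : Fin (N + 1) → ℤ)
    (ha : Function.Injective a) (hdet : (interpMat N t0 a y).det = 0)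
    (P : ℚ[X]) (hP : P.degree < N)
    (hPe : ∀ i : Fin N, P.eval (a i.castSucc : ℚ) = y i.castSucc) :
    P.eval (a (Fin.last N) : ℚ) = y (Fin.last N) := by
  set A : Matrix (Fin (N + 1)) (Fin (N + 1)) ℚ := (interpMat N t0 a y).map (Int.castRingHom ℚ)
    with hA
  have hdetA : A.det = 0 := by
    rw [hA]
    have := (Int.castRingHom ℚ).map_det (interpMat N t0 a y)
    rw [RingHom.mapMatrix_apply] at this
    rw [← this, hdet, map_zero]
  obtain ⟨v, hv0, hv⟩ := Matrix.exists_mulVec_eq_zero_iff.2 hdetA
  -- the polynomial part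
  let Q0 : ℚ[X] := ∑ k : Fin N, C (v k.castSucc) * X ^ (k : ℕ)
  let Q : ℚ[X] := Q0.comp (X - C (t0 : ℚ))
  have hQ0deg : Q0.degree < N := by
    refine (Polynomial.degree_sum_le _ _).trans_lt ?_
    refine (Finset.sup_lt_iff (α := WithBot ℕ) (a := (N : WithBot ℕ)) (WithBot.bot_lt_coe N)).2 ?_
    intro k _
    refine (degree_C_mul_X_pow_le _ _).trans_lt ?_
    exact_mod_cast k.2
  have hQdeg : Q.degree < N := by
    by_cases h : Q0 = 0
    · simp only [Q, h, zero_comp, degree_zero]; exact WithBot.bot_lt_coe N
    · have hc : Q ≠ 0 := by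
        intro hq
        apply h
        have : Q0 = Q.comp (X + C (t0 : ℚ)) := by
          simp only [Q, comp_assoc]; simp
        rw [this, hq, zero_comp]
      rw [degree_eq_natDegree hc]
      rw [degree_eq_natDegree h] at hQ0deg
      simp only [Q, natDegree_comp, natDegree_X_sub_C, mul_one]
      exact hQ0deg
  have heq : ∀ i, Q.eval (a i : ℚ) + v (Fin.last N) * y i = 0 := by
    intro i
    have h1 := congrFun hv i
    simp only [Matrix.mulVec, dotProduct, Pi.zero_apply, hA, Matrix.map_apply, interpMat,
      Matrix.of_apply] at h1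
    rw [Fin.sum_univ_castSucc] at h1
    simp only [Fin.val_castSucc, Fin.is_lt, if_true, Fin.val_last, lt_irrefl, if_false] at h1
    simp only [Q, Q0, eval_comp, eval_finsetSum, eval_mul, eval_C, eval_pow, eval_X, eval_sub]
    rw [← h1]
    simp only [map_pow, eq_intCast, Int.cast_sub]
    congr 1
    · exact Finset.sum_congr rfl fun k _ => by ring
    · ring
  have hinj : Function.Injective (fun i : Fin (N + 1) => (a i : ℚ)) :=
    fun i j hij => ha (Int.cast_injective (α := ℚ) hij)
  have hlast : v (Fin.last N) ≠ 0 := by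
    intro h0
    have hQz : Q = 0 := by
      refine Polynomial.eq_zero_of_natDegree_lt_card_of_eval_eq_zero Q hinj
        (fun i => by simpa [h0] using heq i) ?_
      rw [Fintype.card_fin]
      by_cases h : Q = 0
      · simp [h]
      · rw [degree_eq_natDegree h] at hQdeg
        have : Q.natDegree < N := by exact_mod_cast hQdeg
        omega
    have hQ0z : Q0 = 0 := by
      have : Q0 = Q.comp (X + C (t0 : ℚ)) := by
        simp only [Q, comp_assoc]; simp
      rw [this, hQz, zero_comp]
    apply hv0
    funext i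
    refine Fin.lastCases h0 (fun k => ?_) i
    have h3 : Q0.coeff (k : ℕ) = v k.castSucc := by
      simp only [Q0, finsetSum_coeff, coeff_C_mul, coeff_X_pow]
      rw [Finset.sum_eq_single k]
      · simp
      · intro l _ hl
        have : (k : ℕ) ≠ l := fun h => hl (Fin.ext h.symm)
        simp [this]
      · simp
    rw [← h3, hQ0z, coeff_zero, Pi.zero_apply]
  -- now compare with `P`
  have hR : P + C (v (Fin.last N))⁻¹ * Q = 0 := by
    rcases Nat.eq_zero_or_pos N with hN | hN
    · subst hN
      have h1 : P = 0 := by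
        by_contra h
        rw [degree_eq_natDegree h] at hP
        exact absurd hP (by simp)
      have h2 : Q = 0 := by
        by_contra h
        rw [degree_eq_natDegree h] at hQdeg
        exact absurd hQdeg (by simp)
      simp [h1, h2]
    refine Polynomial.eq_zero_of_natDegree_lt_card_of_eval_eq_zero _
      (f := fun i : Fin N => (a i.castSucc : ℚ)) ?_ ?_ ?_
    · intro i j hij
      exact Fin.castSucc_injective N (hinj hij)
    · intro i
      have := heq i.castSucc
      simp only [eval_add, hPe, eval_mul, eval_C]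
      field_simp
      linear_combination this
    · rw [Fintype.card_fin]
      by_cases h : P + C (v (Fin.last N))⁻¹ * Q = 0
      · rw [h, natDegree_zero]; exact hN
      · have h1 : (P + C (v (Fin.last N))⁻¹ * Q).degree < N := by
          refine (degree_add_le _ _).trans_lt (max_lt hP ?_)
          refine (degree_mul_le _ _).trans_lt ?_
          refine lt_of_le_of_lt ?_ hQdeg
          calc (C (v (Fin.last N))⁻¹).degree + Q.degree ≤ 0 + Q.degree := by
                gcongr; exact degree_C_le
            _ = Q.degree := zero_add _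
        rw [degree_eq_natDegree h] at h1
        exact_mod_cast h1
  have h4 := congrArg (fun R : ℚ[X] => R.eval (a (Fin.last N) : ℚ)) hR
  simp only [eval_add, eval_mul, eval_C, eval_zero] at h4
  have h5 := heq (Fin.last N)
  have h6 : P.eval (a (Fin.last N) : ℚ) =
      - ((v (Fin.last N))⁻¹ * Q.eval (a (Fin.last N) : ℚ)) := by linear_combination h4
  rw [h6]
  field_simp
  linear_combination -h5

end Pool.Agent.Common_HIT
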