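import Mathlib
import Pool.Agent.Common_HIT.Det

/-!
# Few integral points in one residue class
-/

set_option autoImplicit false

open Polynomial

namespace Pool.Agent.Common_HIT

/-- `g` viewed with rational coefficients. -/
noncomputable def toRat (g : ℤ[X][X]) : ℚ[X][X] := g.map (mapRingHom (Int.castRingHom ℚ))

theorem eval_toRat (g : ℤ[X][X]) (a y : ℤ) (P : ℚ[X]) (hP : P.eval (a : ℚ) = y) :
    ((toRat g).eval P).eval (a : ℚ) = (evalEval a y g : ℤ) := by
  have h1 : ((toRat g).eval P).eval (a : ℚ) = evalEval (a : ℚ) (y : ℚ) (toRat g) := by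
    unfold evalEval
    rw [← coe_evalRingHom, ← eval₂_hom, ← eval₂_hom]
    simp [hP]
  rw [h1]
  have := map_mapRingHom_evalEval (Int.castRingHom ℚ) a y (p := g)
  simpa [toRat] using this

/-- A bound for the degree of `g(X, P(X))`. -/
noncomputable def degBound (g : ℤ[X][X]) (N : ℕ) : ℕ :=
  (∑ k ∈ Finset.range (g.natDegree + 1), (g.coeff k).natDegree) + g.natDegree * N

theorem natDegree_eval_toRat_le (g : ℤ[X][X]) (N : ℕ) (P : ℚ[X]) (hP : P.natDegree ≤ N) :
    ((toRat g).eval P).natDegree ≤ degBound g N := by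
  have hd : (toRat g).natDegree ≤ g.natDegree := natDegree_map_le
  rw [eval_eq_sum_range' (n := g.natDegree + 1) (by omega)]
  refine natDegree_sum_le_of_forall_le _ _ fun k hk => ?_
  rw [Finset.mem_range] at hk
  refine natDegree_mul_le.trans ?_
  refine add_le_add ?_ ?_
  · have h1 : ((toRat g).coeff k).natDegree ≤ (g.coeff k).natDegree := by
      simp only [toRat, coeff_map, coe_mapRingHom]
      exact natDegree_map_le
    refine h1.trans ?_
    exact Finset.single_le_sum (f := fun k => (g.coeff k).natDegree) (fun _ _ => Nat.zero_le _)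
      (Finset.mem_range.2 hk)
  · refine natDegree_pow_le.trans ?_
    exact Nat.mul_le_mul (by omega) hP

theorem class_bound (g : ℤ[X][X]) (hg : ∀ P : ℚ[X], (toRat g).eval P ≠ 0)
    (p : ℕ) [hp : Fact p.Prime] (t0 : ℕ) (y0 : ℤ) (N : ℕ) (hN : 1 ≤ N) (T Y : ℕ)
    (htT : t0 ≤ T)
    (h0 : (p : ℤ) ∣ evalEval (t0 : ℤ) y0 g) (h1 : ¬ (p : ℤ) ∣ evalEval (t0 : ℤ) y0 (derivative g))
    (hbig : ((N + 1).factorial * (T ^ (N * (N - 1) / 2) * Y) : ℕ) < p ^ (N * (N + 1) / 2))
    (S : Finset ℕ) (y : ℕ → ℤ)
    (hST : ∀ a ∈ S, a ≤ T) (hSt : ∀ a ∈ S, (p : ℤ) ∣ (a : ℤ) - t0)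
    (hSy : ∀ a ∈ S, (p : ℤ) ∣ y a - y0) (hroot : ∀ a ∈ S, evalEval (a : ℤ) (y a) g = 0)
    (hY : ∀ a ∈ S, |y a| ≤ Y) :
    S.card ≤ degBound g N + N := by
  obtain ⟨c, hc⟩ := exists_taylor_coeffs g p (t0 : ℤ) y0 h0 h1 N hN
  by_contra hcard
  rw [not_le] at hcard
  -- choose `N` points
  obtain ⟨S0, hS0, hS0c⟩ := Finset.exists_subset_card_eq (s := S) (n := N) (by omega)
  let e : Fin N ↪o ℕ := S0.orderEmbOfFin hS0c
  have heS : ∀ i, e i ∈ S := fun i => hS0 (S0.orderEmbOfFin_mem hS0c i)
  -- interpolation polynomial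
  let P : ℚ[X] := Lagrange.interpolate Finset.univ (fun i : Fin N => ((e i : ℕ) : ℚ))
    (fun i => ((y (e i) : ℤ) : ℚ))
  have hinj : Set.InjOn (fun i : Fin N => ((e i : ℕ) : ℚ)) (Finset.univ : Finset (Fin N)) := by
    intro i _ j _ hij
    exact e.injective (Nat.cast_injective hij)
  have hPdeg : P.degree < N := by
    have := Lagrange.degree_interpolate_lt (fun i : Fin N => ((y (e i) : ℤ) : ℚ)) hinj
    rwa [Finset.card_univ, Fintype.card_fin] at this
  have hPe : ∀ i : Fin N, P.eval ((e i : ℕ) : ℚ) = y (e i) := by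
    intro i
    exact Lagrange.eval_interpolate_at_node _ hinj (Finset.mem_univ i)
  -- every point of `S` is on `P`
  have hall : ∀ a ∈ S, P.eval (a : ℚ) = y a := by
    intro a ha
    by_cases hae : ∃ i, e i = a
    · obtain ⟨i, rfl⟩ := hae
      exact hPe i
    · push Not at hae
      let av : Fin (N + 1) → ℤ := Fin.lastCases (a : ℤ) (fun i => ((e i : ℕ) : ℤ))
      let yv : Fin (N + 1) → ℤ := Fin.lastCases (y a) (fun i => y (e i))
      have hav : ∀ i, ∃ a' ∈ S, av i = (a' : ℤ) ∧ yv i = y a' := by
        intro i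
        refine Fin.lastCases ?_ (fun k => ?_) i
        · exact ⟨a, ha, by simp [av], by simp [yv]⟩
        · exact ⟨e k, heS k, by simp [av], by simp [yv]⟩
      have hb : ∀ i, ∃ b : ℤ, av i = t0 + p * b := by
        intro i
        obtain ⟨a', ha', h2, _⟩ := hav i
        obtain ⟨b, hb⟩ := hSt a' ha'
        exact ⟨b, by rw [h2]; linear_combination hb⟩
      choose b hb using hb
      have hdvd : (p : ℤ) ^ (N * (N + 1) / 2) ∣ (interpMat N t0 av yv).det := by
        have h2 : av = fun i => (t0 : ℤ) + p * b i := funext hb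
        rw [h2]
        refine dvd_det_interpMat N p t0 b yv c fun i => ?_
        obtain ⟨a', ha', h3, h4⟩ := hav i
        rw [h4]
        refine hc (b i) (y a') (hSy a' ha') ?_
        rw [← hb i, h3]
        exact hroot a' ha'
      have hle : |(interpMat N t0 av yv).det| ≤
          (N + 1).factorial * ((T : ℤ) ^ (N * (N - 1) / 2) * Y) := by
        refine abs_det_interpMat_le N t0 av yv T Y (fun i => ?_) (fun i => ?_)
        · obtain ⟨a', ha', h3, _⟩ := hav i
          rw [h3, abs_le]
          have := hST a' ha'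
          constructor <;> omega
        · obtain ⟨a', ha', _, h4⟩ := hav i
          rw [h4]; exact hY a' ha'
      have hdet : (interpMat N t0 av yv).det = 0 := by
        refine Int.eq_zero_of_abs_lt_dvd hdvd (hle.trans_lt ?_)
        exact_mod_cast hbig
      have hinj' : Function.Injective av := by
        intro i j
        refine Fin.lastCases ?_ (fun k => ?_) i <;> refine Fin.lastCases ?_ (fun l => ?_) j
        · intro _; rfl
        · intro h
          simp only [av, Fin.lastCases_last, Fin.lastCases_castSucc] at h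
          exact absurd (by exact_mod_cast h.symm) (hae l)
        · intro h
          simp only [av, Fin.lastCases_last, Fin.lastCases_castSucc] at h
          exact absurd (by exact_mod_cast h) (hae k)
        · intro h
          simp only [av, Fin.lastCases_castSucc] at h
          rw [e.injective (by exact_mod_cast h : (e k : ℕ) = e l)]
      have h5 := eval_eq_of_det_eq_zero N t0 av yv hinj' hdet P hPdeg (fun i => by
        simp only [av, yv, Fin.lastCases_castSucc]
        exact hPe i)
      simpa [av, yv] using h5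
  -- now `g(X, P(X))` has too many roots
  set F : ℚ[X] := (toRat g).eval P with hF
  have hFdeg : F.natDegree ≤ degBound g N := by
    refine natDegree_eval_toRat_le g N P ?_
    by_cases hP0 : P = 0
    · simp [hP0]
    · rw [degree_eq_natDegree hP0] at hPdeg
      have : P.natDegree < N := by exact_mod_cast hPdeg
      omega
  refine hg P (Polynomial.eq_zero_of_natDegree_lt_card_of_eval_eq_zero' F
    (S.image (fun a : ℕ => (a : ℚ))) ?_ ?_)
  · intro q hq
    obtain ⟨a, ha, rfl⟩ := Finset.mem_image.1 hq
    have := eval_toRat g (a : ℤ) (y a) P (by simpa using hall a ha)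
    rw [hroot a ha] at this
    simpa using this
  · rw [Finset.card_image_of_injective _ Nat.cast_injective]
    omega

end Pool.Agent.Common_HIT
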