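import Mathlib
import Pool.Agent.Common_HIT.ClassBound

/-!
# Counting specialisations with an integral root
-/

set_option autoImplicit false

open Polynomial

namespace Pool.Agent.Common_HIT

/-- Sum of absolute values of the coefficients. -/
def len (q : ℤ[X]) : ℕ := ∑ i ∈ Finset.range (q.natDegree + 1), (q.coeff i).natAbs

theorem abs_eval_le_len (q : ℤ[X]) (a T κ : ℕ) (hT : 1 ≤ T) (ha : a ≤ T) (hκ : q.natDegree ≤ κ) :
    |q.eval (a : ℤ)| ≤ ((len q * T ^ κ : ℕ) : ℤ) := by
  rw [eval_eq_sum_range]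
  refine (Finset.abs_sum_le_sum_abs _ _).trans ?_
  rw [len, Finset.sum_mul]
  push_cast
  refine Finset.sum_le_sum fun i hi => ?_
  rw [Finset.mem_range] at hi
  rw [abs_mul, Int.abs_eq_natAbs (q.coeff i)]
  refine mul_le_mul_of_nonneg_left ?_ (by positivity)
  rw [abs_pow, abs_of_nonneg (by positivity : (0 : ℤ) ≤ (a : ℤ))]
  calc (a : ℤ) ^ i ≤ (T : ℤ) ^ i := pow_le_pow_left₀ (by positivity) (by exact_mod_cast ha) _
    _ ≤ (T : ℤ) ^ κ := pow_le_pow_right₀ (by exact_mod_cast hT) (by omega)

theorem abs_root_le (h : ℤ[X]) (hm : h.Monic) (y : ℤ) (hy : h.eval y = 0) :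
    |y| ≤ 1 + ∑ k ∈ Finset.range h.natDegree, |h.coeff k| := by
  have hnn : 0 ≤ ∑ k ∈ Finset.range h.natDegree, |h.coeff k| :=
    Finset.sum_nonneg fun _ _ => abs_nonneg _
  by_cases h1 : |y| ≤ 1
  · linarith
  rw [not_le] at h1
  have hd : 1 ≤ h.natDegree := by
    by_contra hd
    have h0 : h.natDegree = 0 := by omega
    have h1' : h = 1 := hm.natDegree_eq_zero.1 h0
    rw [h1'] at hy; simp at hy
  rw [eval_eq_sum_range, Finset.sum_range_succ, hm.coeff_natDegree, one_mul] at hy
  have h2 : |y| ^ h.natDegree ≤ (∑ k ∈ Finset.range h.natDegree, |h.coeff k|) *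
      |y| ^ (h.natDegree - 1) := by
    have h3 : y ^ h.natDegree = -∑ k ∈ Finset.range h.natDegree, h.coeff k * y ^ k := by
      linear_combination hy
    rw [← abs_pow, h3, abs_neg, Finset.sum_mul]
    refine (Finset.abs_sum_le_sum_abs _ _).trans (Finset.sum_le_sum fun k hk => ?_)
    rw [Finset.mem_range] at hk
    rw [abs_mul, abs_pow]
    refine mul_le_mul_of_nonneg_left ?_ (abs_nonneg _)
    exact pow_le_pow_right₀ h1.le (by omega)
  have h4 : |y| ^ h.natDegree = |y| * |y| ^ (h.natDegree - 1) := by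
    rw [← pow_succ']; congr 1; omega
  rw [h4] at h2
  have h5 : (0 : ℤ) < |y| ^ (h.natDegree - 1) := by positivity
  have h6 := le_of_mul_le_mul_right h2 h5
  linarith

theorem exists_root_bound (g : ℤ[X][X]) (hm : g.Monic) :
    ∃ C κ : ℕ, ∀ T a : ℕ, 1 ≤ T → a ≤ T → ∀ y : ℤ, evalEval (a : ℤ) y g = 0 →
      |y| ≤ ((C * T ^ κ : ℕ) : ℤ) := by
  refine ⟨1 + ∑ k ∈ Finset.range g.natDegree, len (g.coeff k),
    ∑ k ∈ Finset.range g.natDegree, (g.coeff k).natDegree, fun T a hT ha y hy => ?_⟩
  rw [evalEval_eq_eval] at hy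
  have h1 := abs_root_le _ (hm.map _) y hy
  rw [hm.natDegree_map] at h1
  set κ := ∑ k ∈ Finset.range g.natDegree, (g.coeff k).natDegree with hκ
  have h2 : ∀ k ∈ Finset.range g.natDegree, |(g.map (evalRingHom (a : ℤ))).coeff k| ≤
      ((len (g.coeff k) * T ^ κ : ℕ) : ℤ) := by
    intro k hk
    rw [coeff_map, coe_evalRingHom]
    exact abs_eval_le_len _ a T κ hT ha
      (Finset.single_le_sum (f := fun k => (g.coeff k).natDegree) (fun _ _ => Nat.zero_le _) hk)
  refine h1.trans ?_
  refine (add_le_add_right (Finset.sum_le_sum h2) 1).trans ?_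
  have h3 : (1 : ℕ) ≤ T ^ κ := Nat.one_le_pow _ _ hT
  rw [← Nat.cast_sum, ← Finset.sum_mul]
  have h4 : (1 : ℤ) ≤ ((T ^ κ : ℕ) : ℤ) := by exact_mod_cast h3
  push_cast at h4 ⊢
  nlinarith [h4]

open Classical in
/-- The natural numbers `a < T` for which `g(a, ·)` has an integral root. -/
noncomputable def bad (g : ℤ[X][X]) (T : ℕ) : Finset ℕ :=
  (Finset.range T).filter fun a => ∃ y : ℤ, evalEval (a : ℤ) y g = 0

open Classical in
theorem count_bad (g : ℤ[X][X]) (hm : g.Monic) (hg : ∀ P : ℚ[X], (toRat g).eval P ≠ 0)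
    (A B : ℤ[X][X]) (r : ℤ[X]) (hr : r ≠ 0) (hsep : A * g + B * derivative g = C r) :
    ∃ N0 : ℕ, ∀ N ≥ N0, ∃ C' R0 : ℕ, ∀ R ≥ R0,
      (bad g (R ^ (N * (N + 1) / 2))).card ≤ C' * R ^ (N * (N + 1) / 2 - 1) := by
  obtain ⟨C, κ, hC⟩ := exists_root_bound g hm
  refine ⟨κ + 2, fun N hN => ?_⟩
  have heN : N * (N + 1) / 2 = N * (N - 1) / 2 + N := by
    have h1 := Finset.sum_range_id N
    have h2 := sum_range_id_eq N
    rw [Finset.sum_range_succ] at h2
    omega
  set e := N * (N + 1) / 2 with he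
  have he2 : N * (N - 1) / 2 + κ ≤ e - 2 := by omega
  have he3 : 3 ≤ e := by
    have h3 : 2 ≤ N := by omega
    have h4 : 1 ≤ N * (N - 1) / 2 := by
      rw [Nat.le_div_iff_mul_le (by norm_num)]
      calc 1 * 2 = 2 * 1 := rfl
        _ ≤ N * (N - 1) := Nat.mul_le_mul h3 (by omega)
    omega
  refine ⟨2 * ((degBound g N + N) * g.natDegree) + r.natDegree,
    max 2 (max ((N + 1).factorial * C) (r.leadingCoeff.natAbs + 1)), fun R hR => ?_⟩
  have hR2 : 2 ≤ R := le_trans (le_max_left _ _) hR
  have hR3 : (N + 1).factorial * C ≤ R :=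
    le_trans (le_trans (le_max_left _ _) (le_max_right _ _)) hR
  have hR4 : r.leadingCoeff.natAbs + 1 ≤ R :=
    le_trans (le_trans (le_max_right _ _) (le_max_right _ _)) hR
  have hRpos : 0 < R := by omega
  obtain ⟨p, hpp, hp1, hp2⟩ := Nat.exists_prime_lt_and_le_two_mul (R ^ (e - 1)) (by positivity)
  have : Fact p.Prime := ⟨hpp⟩
  have hRe : R ^ e = R * R ^ (e - 1) := by
    rw [← pow_succ']; congr 1; omega
  have hpT : p ≤ R ^ e := by
    rw [hRe]; exact hp2.trans (Nat.mul_le_mul_right _ hR2)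
  have hT1 : 1 ≤ R ^ e := Nat.one_le_pow _ _ hRpos
  have hRp : R < p := by
    refine lt_of_le_of_lt ?_ hp1
    calc R = R ^ 1 := (pow_one R).symm
      _ ≤ R ^ (e - 1) := Nat.pow_le_pow_right hRpos (by omega)
  -- the size condition
  have hbig : ((N + 1).factorial * ((R ^ e) ^ (N * (N - 1) / 2) * (C * (R ^ e) ^ κ)) : ℕ) <
      p ^ e := by
    calc (N + 1).factorial * ((R ^ e) ^ (N * (N - 1) / 2) * (C * (R ^ e) ^ κ))
        = ((N + 1).factorial * C) * (R ^ e) ^ (N * (N - 1) / 2 + κ) := by rw [pow_add]; ring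
      _ ≤ R ^ e * (R ^ e) ^ (e - 2) := by
          refine Nat.mul_le_mul ?_ (Nat.pow_le_pow_right hT1 he2)
          refine hR3.trans ?_
          calc R = R ^ 1 := (pow_one R).symm
            _ ≤ R ^ e := Nat.pow_le_pow_right hRpos (by omega)
      _ = (R ^ (e - 1)) ^ e := by
          rw [← pow_succ', ← pow_mul, ← pow_mul]
          congr 1
          have : e - 2 + 1 = e - 1 := by omega
          rw [this, mul_comm]
      _ < p ^ e := Nat.pow_lt_pow_left hp1 (by omega)
  -- choose the roots
  let y : ℕ → ℤ := fun a => if h : ∃ y : ℤ, evalEval (a : ℤ) y g = 0 then h.choose else 0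
  have hy : ∀ a ∈ bad g (R ^ e), evalEval (a : ℤ) (y a) g = 0 := by
    intro a ha
    have h := (Finset.mem_filter.1 ha).2
    simp only [y, dif_pos h]
    exact h.choose_spec
  have haT : ∀ a ∈ bad g (R ^ e), a < R ^ e := fun a ha =>
    Finset.mem_range.1 (Finset.mem_filter.1 ha).1
  have hyb : ∀ a ∈ bad g (R ^ e), |y a| ≤ ((C * (R ^ e) ^ κ : ℕ) : ℤ) := fun a ha =>
    hC _ a hT1 (haT a ha).le _ (hy a ha)
  -- split into singular and smooth classes
  let Sr : Finset ℕ := (bad g (R ^ e)).filter fun a : ℕ => (p : ℤ) ∣ r.eval (a : ℤ)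
  let Ss : Finset ℕ := (bad g (R ^ e)).filter fun a : ℕ => ¬ (p : ℤ) ∣ r.eval (a : ℤ)
  have hsplit : (bad g (R ^ e)).card = Sr.card + Ss.card := by
    have h := Finset.card_filter_add_card_filter_not (s := bad g (R ^ e))
      (fun a : ℕ => (p : ℤ) ∣ r.eval (a : ℤ))
    simp only [Sr, Ss]
    rw [← h]
  -- singular part
  have hSr : Sr.card ≤ r.natDegree * R := by
    set rp : (ZMod p)[X] := r.map (Int.castRingHom (ZMod p)) with hrp
    have hrp0 : rp ≠ 0 := by
      intro h
      have h1 : rp.coeff r.natDegree = 0 := by rw [h, coeff_zero]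
      rw [hrp, coeff_map, eq_intCast, ← Polynomial.leadingCoeff,
        ZMod.intCast_zmod_eq_zero_iff_dvd] at h1
      have h2 : p ∣ r.leadingCoeff.natAbs := Int.natCast_dvd.1 h1
      have h3 := Nat.le_of_dvd (Nat.pos_of_ne_zero (by simpa using hr)) h2
      omega
    have hsub : Sr.card ≤ (Finset.range R ×ˢ rp.roots.toFinset).card := by
      refine Finset.card_le_card_of_injOn (fun a => (a / p, (a : ZMod p))) ?_ ?_
      · intro a ha
        have ha' := Finset.mem_filter.1 (Finset.mem_coe.1 ha)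
        simp only [Finset.coe_product, Set.mem_prod, Finset.mem_coe, Finset.mem_range,
          Multiset.mem_toFinset, mem_roots hrp0, IsRoot.def]
        refine ⟨?_, ?_⟩
        · rw [Nat.div_lt_iff_lt_mul hpp.pos]
          refine (haT a ha'.1).trans_le ?_
          rw [hRe]; exact Nat.mul_le_mul_left _ hp1.le
        · rw [hrp]
          have h1 : ((a : ℕ) : ZMod p) = Int.castRingHom (ZMod p) (a : ℤ) := by simp
          rw [h1, Polynomial.eval_map, eval₂_hom, eq_intCast, ZMod.intCast_zmod_eq_zero_iff_dvd]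
          exact ha'.2
      · intro a _ b _ hab
        simp only [Prod.mk.injEq] at hab
        have h1 : a % p = b % p := (ZMod.natCast_eq_natCast_iff' a b p).1 hab.2
        rw [← Nat.div_add_mod a p, ← Nat.div_add_mod b p, hab.1, h1]
    refine hsub.trans ?_
    rw [Finset.card_product, Finset.card_range, mul_comm]
    refine Nat.mul_le_mul_right _ ?_
    refine (Multiset.toFinset_card_le _).trans ((card_roots' _).trans natDegree_map_le)
  -- smooth part
  have hSs : Ss.card ≤ (degBound g N + N) * (g.natDegree * p) := by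
    let ψ : ℕ → ZMod p × ZMod p := fun a => ((a : ZMod p), (y a : ZMod p))
    have h1 : Ss.card ≤ (degBound g N + N) * (Ss.image ψ).card := by
      refine Finset.card_le_mul_card_image Ss _ fun uv huv => ?_
      obtain ⟨a0, ha0, rfl⟩ := Finset.mem_image.1 huv
      have ha0' := Finset.mem_filter.1 ha0
      set t0 : ℕ := a0 % p with ht0
      have ht0d : (p : ℤ) ∣ (a0 : ℤ) - t0 := by
        rw [ht0]; push_cast; exact Int.dvd_self_sub_emod
      have hg0 : (p : ℤ) ∣ evalEval (a0 : ℤ) (y a0) g := by rw [hy a0 ha0'.1]; exact dvd_zero _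
      have hg1 : ¬ (p : ℤ) ∣ evalEval (a0 : ℤ) (y a0) (derivative g) := by
        intro h
        apply ha0'.2
        have h2 := congrArg (evalEval (a0 : ℤ) (y a0)) hsep
        rw [evalEval_add, evalEval_mul, evalEval_mul, evalEval_C, hy a0 ha0'.1, mul_zero,
          zero_add] at h2
        rw [← h2]
        exact Dvd.dvd.mul_left h _
      refine class_bound g hg p t0 (y a0) N (by omega) (R ^ e) (C * (R ^ e) ^ κ)
        ((Nat.mod_lt _ hpp.pos).le.trans hpT)
        ((dvd_evalEval_congr p g ht0d (by simp)).1 hg0)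
        (fun h => hg1 ((dvd_evalEval_congr p (derivative g) ht0d (by simp)).2 h))
        hbig _ y ?_ ?_ ?_ ?_ ?_
      · intro a ha
        exact (haT a (Finset.mem_filter.1 (Finset.mem_filter.1 ha).1).1).le
      · intro a ha
        have h2 := (Finset.mem_filter.1 ha).2
        simp only [ψ, Prod.mk.injEq] at h2
        have h3 : (p : ℤ) ∣ (a : ℤ) - a0 := by
          rw [← ZMod.intCast_zmod_eq_zero_iff_dvd]; push_cast; rw [h2.1, sub_self]
        have : (a : ℤ) - t0 = (a - a0) + (a0 - t0) := by ring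
        rw [this]; exact dvd_add h3 ht0d
      · intro a ha
        have h2 := (Finset.mem_filter.1 ha).2
        simp only [ψ, Prod.mk.injEq] at h2
        rw [← ZMod.intCast_zmod_eq_zero_iff_dvd]; push_cast; rw [h2.2, sub_self]
      · intro a ha
        exact hy a (Finset.mem_filter.1 (Finset.mem_filter.1 ha).1).1
      · intro a ha
        exact hyb a (Finset.mem_filter.1 (Finset.mem_filter.1 ha).1).1
    have h2 : (Ss.image ψ).card ≤ g.natDegree * p := by
      have h3 : (Ss.image ψ).card ≤ g.natDegree * ((Ss.image ψ).image Prod.fst).card := by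
        refine Finset.card_le_mul_card_image _ _ fun u _ => ?_
        -- fibres inject into the roots of `g mod p` at `u`
        set gu : (ZMod p)[X] := (g.map (mapRingHom (Int.castRingHom (ZMod p)))).map
          (evalRingHom u) with hgu
        have hgum : gu.Monic := (hm.map _).map _
        have hcard : gu.roots.toFinset.card ≤ g.natDegree := by
          refine (Multiset.toFinset_card_le _).trans ((card_roots' _).trans ?_)
          exact natDegree_map_le.trans natDegree_map_le
        refine le_trans ?_ hcard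
        refine Finset.card_le_card_of_injOn Prod.snd ?_ ?_
        · intro uv huv
          obtain ⟨huv1, huv2⟩ := Finset.mem_filter.1 (Finset.mem_coe.1 huv)
          obtain ⟨a, ha, rfl⟩ := Finset.mem_image.1 huv1
          have ha' := Finset.mem_filter.1 ha
          simp only [ψ] at huv2 ⊢
          rw [Finset.mem_coe, Multiset.mem_toFinset, mem_roots hgum.ne_zero, IsRoot.def, hgu,
            map_evalRingHom_eval, ← huv2]
          have h4 := cast_evalEval p g (a : ℤ) (y a)
          rw [hy a ha'.1, Int.cast_zero] at h4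
          simpa using h4.symm
        · intro uv huv uv' huv' h
          obtain ⟨_, h5⟩ := Finset.mem_filter.1 (Finset.mem_coe.1 huv)
          obtain ⟨_, h6⟩ := Finset.mem_filter.1 (Finset.mem_coe.1 huv')
          exact Prod.ext (h5.trans h6.symm) h
      refine h3.trans (Nat.mul_le_mul_left _ ?_)
      refine (Finset.card_le_univ _).trans ?_
      rw [ZMod.card]
    exact h1.trans (Nat.mul_le_mul_left _ h2)
  rw [hsplit]
  have hRle : R ≤ R ^ (e - 1) := by
    calc R = R ^ 1 := (pow_one R).symm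
      _ ≤ R ^ (e - 1) := Nat.pow_le_pow_right hRpos (by omega)
  calc Sr.card + Ss.card ≤ r.natDegree * R + (degBound g N + N) * (g.natDegree * p) :=
        add_le_add hSr hSs
    _ ≤ r.natDegree * R ^ (e - 1) + (degBound g N + N) * (g.natDegree * (2 * R ^ (e - 1))) := by
        gcongr
    _ = (2 * ((degBound g N + N) * g.natDegree) + r.natDegree) * R ^ (e - 1) := by ring

end Pool.Agent.Common_HIT
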