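import Mathlib
import Pool.Agent.Common_HIT.Counting

/-!
# Existence of good specialisations
-/

set_option autoImplicit false

open Polynomial

namespace Pool.Agent.Common_HIT

/-- The polynomial `g` is monic in `Y`, has no root in `ℚ[X]` and is separable over `ℚ(X)`
(expressed by a denominator-free Bézout identity). -/
structure Admissible (g : ℤ[X][X]) : Prop where
  monic : g.Monic
  no_root : ∀ P : ℚ[X], (toRat g).eval P ≠ 0
  sep : ∃ (A B : ℤ[X][X]) (r : ℤ[X]), r ≠ 0 ∧ A * g + B * derivative g = C r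

/-- **Hilbert's irreducibility theorem** (in the form of the absence of integral roots):
given finitely many monic separable polynomials over `ℤ[X]` without root in `ℚ[X]`, some
specialisation `X ↦ a` with `δ(a) ≠ 0` makes all of them without an integral root. -/
theorem exists_spec {ι : Type*} [Finite ι] (g : ι → ℤ[X][X]) (hg : ∀ i, Admissible (g i))
    (δ : ℤ[X]) (hδ : δ ≠ 0) :
    ∃ a : ℕ, δ.eval (a : ℤ) ≠ 0 ∧ ∀ i, ∀ y : ℤ, evalEval (a : ℤ) y (g i) ≠ 0 := by
  classical
  cases nonempty_fintype ι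
  have h1 : ∀ i, ∃ N0 : ℕ, ∀ N ≥ N0, ∃ C' R0 : ℕ, ∀ R ≥ R0,
      (bad (g i) (R ^ (N * (N + 1) / 2))).card ≤ C' * R ^ (N * (N + 1) / 2 - 1) := by
    intro i
    obtain ⟨A, B, r, hr, h⟩ := (hg i).sep
    exact count_bad (g i) (hg i).monic (hg i).no_root A B r hr h
  choose N0 hN0 using h1
  set N := 1 + ∑ i, N0 i with hN
  have hNi : ∀ i, N0 i ≤ N := fun i =>
    (Finset.single_le_sum (f := N0) (fun _ _ => Nat.zero_le _) (Finset.mem_univ i)).trans
      (by omega)
  choose C' R0 hCR using fun i => hN0 i N (hNi i)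
  set e := N * (N + 1) / 2 with he
  have he1 : 1 ≤ e := by
    rw [he, Nat.le_div_iff_mul_le (by norm_num)]
    calc 1 * 2 = 1 * (1 + 1) := rfl
      _ ≤ N * (N + 1) := Nat.mul_le_mul (by omega) (by omega)
  set R := (∑ i, R0 i) + (∑ i, C' i) + δ.natDegree + 1 with hR
  have hRi : ∀ i, R0 i ≤ R := fun i =>
    (Finset.single_le_sum (f := R0) (fun _ _ => Nat.zero_le _) (Finset.mem_univ i)).trans
      (by omega)
  have hRpos : 0 < R := by omega
  by_contra hcon
  push Not at hcon
  -- every `a < R ^ e` is bad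
  let Z : Finset ℕ := (Finset.range (R ^ e)).filter fun a : ℕ => δ.eval (a : ℤ) = 0
  have hZ : Z.card ≤ δ.natDegree := by
    have h2 : Z.card ≤ δ.roots.toFinset.card := by
      refine Finset.card_le_card_of_injOn (fun a : ℕ => (a : ℤ)) ?_ ?_
      · intro a ha
        rw [Finset.mem_coe, Multiset.mem_toFinset, mem_roots hδ]
        exact (Finset.mem_filter.1 (Finset.mem_coe.1 ha)).2
      · intro a _ b _ hab
        exact Nat.cast_injective (R := ℤ) hab
    exact h2.trans ((Multiset.toFinset_card_le _).trans (card_roots' _))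
  have hcover : Finset.range (R ^ e) ⊆ Z ∪ Finset.univ.biUnion fun i => bad (g i) (R ^ e) := by
    intro a ha
    rw [Finset.mem_union]
    by_cases h0 : δ.eval (a : ℤ) = 0
    · exact Or.inl (Finset.mem_filter.2 ⟨ha, h0⟩)
    · obtain ⟨i, y, hy⟩ := hcon a h0
      refine Or.inr (Finset.mem_biUnion.2 ⟨i, Finset.mem_univ _, ?_⟩)
      exact Finset.mem_filter.2 ⟨ha, y, hy⟩
  have hcard := Finset.card_le_card hcover
  rw [Finset.card_range] at hcard
  have h3 : (Finset.univ.biUnion fun i => bad (g i) (R ^ e)).card ≤ (∑ i, C' i) * R ^ (e - 1) := by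
    refine Finset.card_biUnion_le.trans ?_
    rw [Finset.sum_mul]
    exact Finset.sum_le_sum fun i _ => hCR i R (hRi i)
  have h4 := hcard.trans (Finset.card_union_le _ _)
  have h5 : R ^ e ≤ (δ.natDegree + ∑ i, C' i) * R ^ (e - 1) := by
    refine h4.trans ?_
    rw [add_mul]
    refine add_le_add ?_ h3
    refine hZ.trans ?_
    exact Nat.le_mul_of_pos_right _ (pow_pos hRpos _)
  have h6 : R ^ e = R * R ^ (e - 1) := by
    rw [← pow_succ']; congr 1; omega
  rw [h6] at h5
  have h7 := Nat.le_of_mul_le_mul_right h5 (pow_pos hRpos _)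
  omega

end Pool.Agent.Common_HIT
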