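import Mathlib
import Pool.Agent.Common_HIT.Spec

/-!
# Minimal polynomials over `ℤ[X]` are admissible
-/

set_option autoImplicit false

open Polynomial

namespace Pool.Agent.Common_HIT

theorem charZero_of_isFractionRing (k : Type*) [Field k] [Algebra ℤ[X] k] [IsFractionRing ℤ[X] k] :
    CharZero k := by
  refine charZero_of_injective_ringHom (f := (algebraMap ℤ[X] k).comp C) ?_
  exact (IsFractionRing.injective ℤ[X] k).comp C_injective

/-- The embedding of `ℚ[X]` into the fraction field of `ℤ[X]`. -/
noncomputable def ratHom (k : Type*) [Field k] [Algebra ℤ[X] k] [CharZero k] : ℚ[X] →+* k :=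
  eval₂RingHom (algebraMap ℚ k) (algebraMap ℤ[X] k X)

theorem ratHom_comp (k : Type*) [Field k] [Algebra ℤ[X] k] [CharZero k] :
    (ratHom k).comp (mapRingHom (Int.castRingHom ℚ)) = algebraMap ℤ[X] k := by
  refine Polynomial.ringHom_ext' (RingHom.ext_int _ _) ?_
  simp [ratHom]

theorem admissible_minpoly (k : Type*) [Field k] [Algebra ℤ[X] k] [IsFractionRing ℤ[X] k]
    (Ω : Type*) [Field Ω] [Algebra k Ω] [Algebra ℤ[X] Ω] [IsScalarTower ℤ[X] k Ω] (x : Ω)
    (hx : IsIntegral ℤ[X] x) (hxk : x ∉ Set.range (algebraMap k Ω)) :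
    Admissible (minpoly ℤ[X] x) := by
  have : CharZero k := charZero_of_isFractionRing k
  have hxk' : IsIntegral k x := hx.tower_top
  have hmap : minpoly k x = (minpoly ℤ[X] x).map (algebraMap ℤ[X] k) :=
    minpoly.isIntegrallyClosed_eq_field_fractions' k hx
  refine ⟨minpoly.monic hx, fun P hP => ?_, ?_⟩
  · have h1 : (minpoly k x).eval (ratHom k P) = 0 := by
      rw [hmap, ← ratHom_comp k, ← Polynomial.map_map, Polynomial.eval_map, eval₂_hom]
      have : map (mapRingHom (Int.castRingHom ℚ)) (minpoly ℤ[X] x) = toRat (minpoly ℤ[X] x) := rfl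
      rw [this, hP, map_zero]
    have h2 := Polynomial.degree_eq_one_of_irreducible_of_root (minpoly.irreducible hxk') h1
    exact hxk (minpoly.mem_range_of_degree_eq_one k x h2)
  · obtain ⟨a, b, hab⟩ := (minpoly.irreducible hxk').separable
    obtain ⟨ra, hra, hA⟩ := IsLocalization.integerNormalization_spec (nonZeroDivisors ℤ[X]) a
    obtain ⟨rb, hrb, hB⟩ := IsLocalization.integerNormalization_spec (nonZeroDivisors ℤ[X]) b
    set A := IsLocalization.integerNormalization (nonZeroDivisors ℤ[X]) a
    set B := IsLocalization.integerNormalization (nonZeroDivisors ℤ[X]) b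
    refine ⟨C rb * A, C ra * B, ra * rb,
      mul_ne_zero (nonZeroDivisors.ne_zero hra) (nonZeroDivisors.ne_zero hrb), ?_⟩
    apply Polynomial.map_injective (algebraMap ℤ[X] k) (IsFractionRing.injective ℤ[X] k)
    rw [Polynomial.map_add, Polynomial.map_mul, Polynomial.map_mul, Polynomial.map_mul,
      Polynomial.map_mul, ← Polynomial.derivative_map, ← hmap, hA, hB, map_C, map_C, map_C,
      Algebra.smul_def, Algebra.smul_def, IsScalarTower.algebraMap_apply ℤ[X] k k[X],
      IsScalarTower.algebraMap_apply ℤ[X] k k[X], Polynomial.algebraMap_eq, map_mul, map_mul]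
    linear_combination (C (algebraMap ℤ[X] k ra) * C (algebraMap ℤ[X] k rb)) * hab

end Pool.Agent.Common_HIT
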