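import Mathlib
import Pool.Agent.Common_HIT.Minpoly

/-!
# Decomposition of monic polynomials over `ℤ[X]`
-/

set_option autoImplicit false

open Polynomial

namespace Pool.Agent.Common_HIT

/-- The denominator-free separability identity. -/
theorem exists_bezout {A : Type*} [CommRing A] [IsDomain A] (k : Type*) [Field k] [Algebra A k]
    [IsFractionRing A k] {q : A[X]} (hsep : (q.map (algebraMap A k)).Separable) :
    ∃ (U V : A[X]) (r : A), r ≠ 0 ∧ U * q + V * derivative q = C r := by
  obtain ⟨a, b, hab⟩ := hsep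
  obtain ⟨ra, hra, hA⟩ := IsLocalization.integerNormalization_spec (nonZeroDivisors A) a
  obtain ⟨rb, hrb, hB⟩ := IsLocalization.integerNormalization_spec (nonZeroDivisors A) b
  set U := IsLocalization.integerNormalization (nonZeroDivisors A) a
  set V := IsLocalization.integerNormalization (nonZeroDivisors A) b
  refine ⟨C rb * U, C ra * V, ra * rb,
    mul_ne_zero (nonZeroDivisors.ne_zero hra) (nonZeroDivisors.ne_zero hrb), ?_⟩
  apply Polynomial.map_injective (algebraMap A k) (IsFractionRing.injective A k)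
  rw [Polynomial.map_add, Polynomial.map_mul, Polynomial.map_mul, Polynomial.map_mul,
    Polynomial.map_mul, ← Polynomial.derivative_map, hA, hB, map_C, map_C, map_C,
    Algebra.smul_def, Algebra.smul_def, IsScalarTower.algebraMap_apply A k k[X],
    IsScalarTower.algebraMap_apply A k k[X], Polynomial.algebraMap_eq, map_mul, map_mul]
  linear_combination (C (algebraMap A k ra) * C (algebraMap A k rb)) * hab

/-- An irreducible monic polynomial over `ℤ[X]` is linear or admissible. -/
theorem linear_or_admissible {h : ℤ[X][X]} (hm : h.Monic) (hirr : Irreducible h) :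
    (∃ ρ : ℤ[X], h = X - C ρ) ∨ Admissible h := by
  let k := FractionRing ℤ[X]
  have hchar : CharZero k := charZero_of_isFractionRing k
  have hirr' : Irreducible (h.map (algebraMap ℤ[X] k)) :=
    (hm.irreducible_iff_irreducible_map_fraction_map).1 hirr
  by_cases hr : ∃ P : ℚ[X], (toRat h).eval P = 0
  · left
    obtain ⟨P, hP⟩ := hr
    have h1 : (h.map (algebraMap ℤ[X] k)).eval (ratHom k P) = 0 := by
      rw [← ratHom_comp k, ← Polynomial.map_map, Polynomial.eval_map, eval₂_hom]
      have : map (mapRingHom (Int.castRingHom ℚ)) h = toRat h := rfl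
      rw [this, hP, map_zero]
    have h2 := Polynomial.degree_eq_one_of_irreducible_of_root hirr' h1
    have h3 : h.natDegree = 1 := by
      rw [← hm.natDegree_map (algebraMap ℤ[X] k)]
      exact natDegree_eq_of_degree_eq_some h2
    refine ⟨-h.coeff 0, ?_⟩
    have h4 := hm.eq_X_add_C h3
    rw [map_neg, sub_neg_eq_add]
    exact h4
  · right
    push Not at hr
    obtain ⟨U, V, r, hr0, hUV⟩ := exists_bezout k (q := h) hirr'.separable
    exact ⟨hm, hr, U, V, r, hr0, hUV⟩

/-- Decomposition into linear and admissible factors, as far as integral roots of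
specialisations are concerned. -/
theorem exists_dec (n : ℕ) : ∀ h : ℤ[X][X], h.Monic → h.natDegree ≤ n →
    ∃ (R : Finset ℤ[X]) (Q : Finset ℤ[X][X]), (∀ q ∈ Q, Admissible q) ∧
      ∀ a z : ℤ, evalEval a z h = 0 → (∃ ρ ∈ R, ρ.eval a = z) ∨ ∃ q ∈ Q, evalEval a z q = 0 := by
  classical
  induction n with
  | zero =>
    intro h hm hn
    have h1 : h = 1 := hm.natDegree_eq_zero.1 (by omega)
    refine ⟨∅, ∅, by simp, fun a z hz => ?_⟩
    rw [h1] at hz
    simp [evalEval] at hz
  | succ n ih =>
    intro h hm hn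
    by_cases hirr : Irreducible h
    · rcases linear_or_admissible hm hirr with ⟨ρ, hρ⟩ | hadm
      · refine ⟨{ρ}, ∅, by simp, fun a z hz => Or.inl ⟨ρ, Finset.mem_singleton_self _, ?_⟩⟩
        rw [hρ, evalEval] at hz
        simp only [eval_sub, eval_X, eval_C] at hz
        linarith
      · exact ⟨∅, {h}, by simpa using hadm, fun a z hz => Or.inr ⟨h, Finset.mem_singleton_self _, hz⟩⟩
    · by_cases h1 : h = 1
      · refine ⟨∅, ∅, by simp, fun a z hz => ?_⟩
        rw [h1] at hz
        simp [evalEval] at hz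
      · rw [hm.irreducible_iff_natDegree'] at hirr
        push Not at hirr
        obtain ⟨f, g, hf, hg, hfg, hdeg⟩ := hirr h1
        rw [Finset.mem_Ioc] at hdeg
        have hd : f.natDegree + g.natDegree = h.natDegree := by
          rw [← hfg, hf.natDegree_mul hg]
        obtain ⟨R1, Q1, hQ1, h1⟩ := ih f hf (by omega)
        obtain ⟨R2, Q2, hQ2, h2⟩ := ih g hg (by omega)
        refine ⟨R1 ∪ R2, Q1 ∪ Q2, ?_, fun a z hz => ?_⟩
        · intro q hq
          rcases Finset.mem_union.1 hq with hq | hq
          · exact hQ1 q hq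
          · exact hQ2 q hq
        · rw [← hfg, evalEval, eval_mul, eval_mul] at hz
          rcases mul_eq_zero.1 hz with hz | hz
          · rcases h1 a z hz with ⟨ρ, hρ, h3⟩ | ⟨q, hq, h3⟩
            · exact Or.inl ⟨ρ, Finset.mem_union_left _ hρ, h3⟩
            · exact Or.inr ⟨q, Finset.mem_union_left _ hq, h3⟩
          · rcases h2 a z hz with ⟨ρ, hρ, h3⟩ | ⟨q, hq, h3⟩
            · exact Or.inl ⟨ρ, Finset.mem_union_right _ hρ, h3⟩
            · exact Or.inr ⟨q, Finset.mem_union_right _ hq, h3⟩

theorem exists_int_mult (q : ℚ[X]) (hq : q ≠ 0) :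
    ∃ δ : ℤ[X], δ ≠ 0 ∧ ∀ a : ℤ, δ.eval a ≠ 0 → q.eval (a : ℚ) ≠ 0 := by
  obtain ⟨r, hr, hA⟩ := IsLocalization.integerNormalization_spec (nonZeroDivisors ℤ) q
  have hr0 : r ≠ 0 := nonZeroDivisors.ne_zero hr
  set δ := IsLocalization.integerNormalization (nonZeroDivisors ℤ) q
  refine ⟨δ, ?_, fun a ha h0 => ha ?_⟩
  · intro h0
    rw [h0, Polynomial.map_zero] at hA
    have h1 : (r : ℤ) • q = 0 := hA.symm
    rcases smul_eq_zero.1 h1 with h2 | h2
    · exact hr0 h2
    · exact hq h2
  · have h1 : (δ.map (algebraMap ℤ ℚ)).eval (a : ℚ) = ((δ.eval a : ℤ) : ℚ) := by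
      rw [eval_map_algebraMap]
      have h2 := aeval_algebraMap_apply ℚ a δ
      simpa using h2
    rw [hA, eval_smul, h0, smul_zero] at h1
    exact_mod_cast h1.symm

end Pool.Agent.Common_HIT
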