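import Mathlib
import Pool.Agent.Common_HIT.Minpoly

/-!
# Specialisation of Galois extensions: the general form
-/

set_option autoImplicit false

open Polynomial
open scoped Pointwise

namespace Pool.Agent.Common_HIT

/-- The specialised extension: `B` is a domain with an action of the finite group `Γ` with
ring of invariants `A`; if at a surjection `ev : A → ℤ` the decomposition group is everything and
the inertia group is trivial, the residue field extension realises `Γ` over `ℚ`. -/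
theorem specialization_general {A B : Type} [CommRing A] [CommRing B] [IsDomain B]
    [Algebra A B] [FaithfulSMul A B] {Γ : Type*} [Group Γ] [Finite Γ] [MulSemiringAction Γ B]
    [IsGaloisGroup Γ A B] (ev : A →+* ℤ) (hev : Function.Surjective ev)
    (y : Subgroup Γ → B) (hy : ∀ D, D ≠ ⊤ → ∀ σ ∈ D, σ • y D = y D)
    (g : Subgroup Γ → A[X]) (hgm : ∀ D, D ≠ ⊤ → (g D).Monic)
    (hg : ∀ D, D ≠ ⊤ → aeval (y D) (g D) = 0)
    (ha : ∀ D, D ≠ ⊤ → ∀ z : ℤ, ((g D).map ev).eval z ≠ 0)
    (hinert : ∀ σ : Γ, σ ≠ 1 → ∃ (b : B) (δ : A), ev δ ≠ 0 ∧ σ • b - b ∣ algebraMap _ B δ) :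
    ∃ (L : Type) (_ : Field L) (_ : Algebra ℚ L) (_ : IsGalois ℚ L),
      Nonempty (Γ ≃* (L ≃ₐ[ℚ] L)) := by
  have hinv : Algebra.IsInvariant A B Γ := IsGaloisGroup.isInvariant
  have hint : Algebra.IsIntegral A B := Algebra.IsInvariant.isIntegral A B Γ
  let P : Ideal A := RingHom.ker ev
  have hP : P.IsPrime := RingHom.ker_isPrime ev
  obtain ⟨⟨Q, hQp, hQ⟩⟩ := P.nonempty_primesOver (S := B)
  let e : (A ⧸ P) ≃+* ℤ := RingHom.quotientKerEquivOfSurjective hev
  have he : ∀ q : A, e (Ideal.Quotient.mk P q) = ev q := fun q =>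
    RingHom.quotientKerEquivOfSurjective_apply_mk hev q
  let algPQ : Algebra (A ⧸ P) ℚ := ((Int.castRingHom ℚ).comp (e : (A ⧸ P) →+* ℤ)).toAlgebra
  have halg : ∀ q : A, algebraMap (A ⧸ P) ℚ (Ideal.Quotient.mk P q) = (ev q : ℤ) := by
    intro q
    change ((e (Ideal.Quotient.mk P q) : ℤ) : ℚ) = _
    rw [he]
  have hinjPQ : Function.Injective (algebraMap (A ⧸ P) ℚ) := by
    intro u v huv
    exact e.injective (Int.cast_injective (α := ℚ) huv)
  have hf : FaithfulSMul (A ⧸ P) ℚ := (faithfulSMul_iff_algebraMap_injective _ _).2 hinjPQ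
  have hfrac : IsFractionRing (A ⧸ P) ℚ := by
    refine IsFractionRing.of_field (A ⧸ P) ℚ fun z => ?_
    refine ⟨e.symm z.num, e.symm z.den, ?_⟩
    have h1 : ∀ w : ℤ, algebraMap (A ⧸ P) ℚ (e.symm w) = w := by
      intro w
      change ((e (e.symm w) : ℤ) : ℚ) = w
      rw [e.apply_symm_apply]
    rw [h1, h1]
    push_cast
    exact (Rat.num_div_den z).symm
  let L := FractionRing (B ⧸ Q)
  have hinjBL : Function.Injective (algebraMap (B ⧸ Q) L) := IsFractionRing.injective _ _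
  have hinjAB : Function.Injective (algebraMap (A ⧸ P) (B ⧸ Q)) :=
    FaithfulSMul.algebraMap_injective _ _
  have hchar : CharZero L := by
    refine charZero_of_injective_ringHom
      (f := (algebraMap (B ⧸ Q) L).comp ((algebraMap (A ⧸ P) (B ⧸ Q)).comp
        (e.symm : ℤ →+* (A ⧸ P)))) ?_
    exact hinjBL.comp (hinjAB.comp e.symm.injective)
  have htower : IsScalarTower (A ⧸ P) ℚ L := by
    refine IsScalarTower.of_algebraMap_eq fun x => ?_
    obtain ⟨w, rfl⟩ := e.symm.surjective x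
    have h1 : (algebraMap (A ⧸ P) L).comp (e.symm : ℤ →+* (A ⧸ P)) =
        ((algebraMap ℚ L).comp (algebraMap (A ⧸ P) ℚ)).comp (e.symm : ℤ →+* (A ⧸ P)) :=
      RingHom.ext_int _ _
    exact RingHom.congr_fun h1 w
  have hnormal : Normal ℚ L := Ideal.IsFractionRing.normal Γ P Q ℚ L
  have hgal : IsGalois ℚ L := { __ := hnormal }
  refine ⟨L, inferInstance, inferInstance, hgal, ?_⟩
  have hcomm : SMulCommClass Γ A B := IsGaloisGroup.commutes
  have hfin : FiniteDimensional ℚ L := Ideal.IsFractionRing.finite_of_isInvariant Γ P Q ℚ L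
  have hsurj := IsFractionRing.stabilizerHom_surjective Γ P Q ℚ L
  -- the decomposition group is everything
  have hD : MulAction.stabilizer Γ Q = ⊤ := by
    by_contra hD
    set D := MulAction.stabilizer Γ Q with hDdef
    have h1 : ∀ f : L ≃ₐ[ℚ] L, f (algebraMap (B ⧸ Q) L (Ideal.Quotient.mk Q (y D))) =
        algebraMap (B ⧸ Q) L (Ideal.Quotient.mk Q (y D)) := by
      intro f
      obtain ⟨σ, rfl⟩ := hsurj f
      rw [IsFractionRing.stabilizerHom_apply_apply_mk, hy D hD _ σ.2]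
    obtain ⟨q, hq⟩ := (IsGalois.mem_range_algebraMap_iff_fixed _).2 h1
    -- it is integral over `ℤ`
    have h2 : ∀ (p : A), algebraMap (B ⧸ Q) L (Ideal.Quotient.mk Q (algebraMap A B p)) =
        algebraMap ℚ L ((ev p : ℤ) : ℚ) := by
      intro p
      rw [← halg p, ← IsScalarTower.algebraMap_apply, IsScalarTower.algebraMap_apply _ (B ⧸ Q) L]
      rfl
    have h2' : ((algebraMap (B ⧸ Q) L).comp (Ideal.Quotient.mk Q)).comp (algebraMap A B) =
        ((algebraMap ℚ L).comp (Int.castRingHom ℚ)).comp ev := RingHom.ext h2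
    have h3 : ((g D).map ev).eval₂ (Int.castRingHom ℚ) q = 0 := by
      apply (algebraMap ℚ L).injective
      have h4 := hg D hD
      rw [aeval_def] at h4
      have h5 := congrArg ((algebraMap (B ⧸ Q) L).comp (Ideal.Quotient.mk Q)) h4
      rw [Polynomial.hom_eval₂, h2', map_zero, RingHom.comp_apply, ← hq] at h5
      rw [map_zero, Polynomial.hom_eval₂, eval₂_map]
      exact h5
    have h4 : IsIntegral ℤ q := ⟨(g D).map ev, (hgm D hD).map _, h3⟩
    obtain ⟨z, hz⟩ := IsIntegrallyClosed.isIntegral_iff.1 h4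
    refine ha D hD z ?_
    apply Int.cast_injective (α := ℚ)
    have h5 : (algebraMap ℤ ℚ) z = Int.castRingHom ℚ z := rfl
    rw [Int.cast_zero, ← h3, ← hz, h5, eval₂_at_apply, eq_intCast]
  -- the inertia group is trivial
  have hker : Function.Injective (IsFractionRing.stabilizerHom Γ P Q ℚ L) := by
    rw [← MonoidHom.ker_eq_bot_iff, IsFractionRing.ker_stabilizerHom, eq_bot_iff]
    intro σ hσ
    rw [Subgroup.mem_bot]
    by_contra hne
    obtain ⟨b, δ, hδ, hdvd⟩ := hinert (σ : Γ) (fun h => hne (Subtype.ext h))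
    have h1 : (σ : Γ) • b - b ∈ Q := hσ b
    have h2 : algebraMap A B δ ∈ Q := Ideal.mem_of_dvd _ hdvd h1
    have h3 : δ ∈ P := by
      rw [hQ.over, Ideal.under_def, Ideal.mem_comap]; exact h2
    exact hδ h3
  have hbij : Function.Bijective (IsFractionRing.stabilizerHom Γ P Q ℚ L) := ⟨hker, hsurj⟩
  exact ⟨(Subgroup.topEquiv.symm.trans (MulEquiv.subgroupCongr hD.symm)).trans
    (MulEquiv.ofBijective _ hbij)⟩

theorem exists_integral_fixed' (A k Ω : Type*) [CommRing A] [IsDomain A] [Field k] [Field Ω]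
    [Algebra A k] [IsFractionRing A k] [Algebra k Ω] [FiniteDimensional k Ω] [Algebra A Ω]
    [IsScalarTower A k Ω] (D : Subgroup (Ω ≃ₐ[k] Ω)) (hD : D ≠ ⊤) :
    ∃ x : Ω, IsIntegral A x ∧ (∀ σ ∈ D, σ x = x) ∧ x ∉ Set.range (algebraMap k Ω) := by
  have h1 : ¬ IntermediateField.fixedField D ≤ ⊥ := by
    intro h
    apply hD
    rw [← IntermediateField.fixingSubgroup_fixedField D, le_bot_iff.1 h,
      IntermediateField.fixingSubgroup_bot]
  obtain ⟨y, hyD, hy⟩ := SetLike.not_le_iff_exists.1 h1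
  have halg : IsAlgebraic A y :=
    (IsFractionRing.isAlgebraic_iff A k Ω).2 (Algebra.IsAlgebraic.isAlgebraic y)
  obtain ⟨s, hs, hsy⟩ := halg.exists_integral_multiple
  have hs' : algebraMap A k s ≠ 0 := by
    rwa [Ne, IsFractionRing.to_map_eq_zero_iff]
  have hsm : s • y = (algebraMap A k s) • y := (algebraMap_smul k s y).symm
  refine ⟨s • y, hsy, fun σ hσ => ?_, fun h => hy ?_⟩
  · rw [hsm, map_smul]
    congr 1
    exact hyD ⟨σ, hσ⟩
  · obtain ⟨z, hz⟩ := h
    rw [IntermediateField.mem_bot]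
    refine ⟨(algebraMap A k s)⁻¹ * z, ?_⟩
    rw [map_mul, hz, hsm, Algebra.smul_def, map_inv₀, ← mul_assoc, inv_mul_cancel₀, one_mul]
    exact (_root_.map_ne_zero _).2 hs'

/-- **Specialisation of Galois extensions, general form**: `A` is an integrally closed domain with
fraction field `k`, and for every finite family of monic polynomials which are minimal polynomials
of integral elements outside `k` and every nonzero `δ` there is a homomorphism `A → ℤ` at which
`δ` does not vanish and the family has no integral roots. Then Galois groups over `k` are Galois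
groups over `ℚ`. -/
theorem exists_galois_general (A k Ω : Type) [CommRing A] [IsDomain A] [IsIntegrallyClosed A]
    [Field k] [Field Ω] [Algebra A k] [IsFractionRing A k] [Algebra k Ω] [FiniteDimensional k Ω]
    [IsGalois k Ω] [Algebra A Ω] [IsScalarTower A k Ω]
    (hspec : ∀ {ι : Type} [Finite ι] (x : ι → Ω), (∀ i, IsIntegral A (x i)) →
      (∀ i, x i ∉ Set.range (algebraMap k Ω)) → ∀ δ : A, δ ≠ 0 →
      ∃ ev : A →+* ℤ, Function.Surjective ev ∧ ev δ ≠ 0 ∧
        ∀ i, ∀ z : ℤ, ((minpoly A (x i)).map ev).eval z ≠ 0) :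
    ∃ (L : Type) (_ : Field L) (_ : Algebra ℚ L) (_ : IsGalois ℚ L),
      Nonempty ((Ω ≃ₐ[k] Ω) ≃* (L ≃ₐ[ℚ] L)) := by
  classical
  let B := integralClosure A Ω
  have hfrac : IsFractionRing B Ω :=
    integralClosure.isFractionRing_of_finite_extension k Ω
  let act : MulSemiringAction (Ω ≃ₐ[k] Ω) B := IsIntegralClosure.MulSemiringAction A k Ω B
  have hgg : IsGaloisGroup (Ω ≃ₐ[k] Ω) A B :=
    IsGaloisGroup.of_isFractionRing (Ω ≃ₐ[k] Ω) A B k Ω
  have hact : ∀ (σ : Ω ≃ₐ[k] Ω) (b : B), ((σ • b : B) : Ω) = σ (b : Ω) := fun σ b =>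
    algebraMap_galRestrictHom_apply A k Ω B σ b
  have hinv : Algebra.IsInvariant A B (Ω ≃ₐ[k] Ω) := IsGaloisGroup.isInvariant
  -- the elements
  have hex : ∀ D : Subgroup (Ω ≃ₐ[k] Ω), ∃ x : B, D ≠ ⊤ → (∀ σ ∈ D, σ • x = x) ∧
      (x : Ω) ∉ Set.range (algebraMap k Ω) := by
    intro D
    by_cases hD : D = ⊤
    · exact ⟨0, fun h => absurd hD h⟩
    · obtain ⟨x, hx, hfix, hxk⟩ := exists_integral_fixed' A k Ω D hD
      refine ⟨⟨x, hx⟩, fun _ => ⟨fun σ hσ => Subtype.ext ?_, hxk⟩⟩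
      rw [hact]; exact hfix σ hσ
  choose y hy using hex
  let g : Subgroup (Ω ≃ₐ[k] Ω) → A[X] := fun D => minpoly A (y D : Ω)
  have hyint : ∀ D, IsIntegral A (y D : Ω) := fun D => (y D).2
  -- the inertia elements
  have hb : ∀ σ : Ω ≃ₐ[k] Ω, ∃ (b : B) (δ : A), σ ≠ 1 → δ ≠ 0 ∧ σ • b - b ∣ algebraMap _ B δ := by
    intro σ
    by_cases hσ : σ = 1
    · exact ⟨0, 0, fun h => absurd hσ h⟩
    · have h1 : ∃ b : B, σ • b ≠ b := by
        by_contra hcon
        push Not at hcon
        have hfaith : FaithfulSMul (Ω ≃ₐ[k] Ω) B := IsGaloisGroup.faithful A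
        exact hσ (hfaith.eq_of_smul_eq_smul fun b => by rw [hcon b, one_smul])
      obtain ⟨b, hb⟩ := h1
      obtain ⟨δ, hδ⟩ := Algebra.IsInvariant.isInvariant (A := A)
        (∏ τ : Ω ≃ₐ[k] Ω, τ • (σ • b - b)) (Finset.smul_prod_perm _)
      refine ⟨b, δ, fun _ => ⟨?_, ?_⟩⟩
      · rintro rfl
        rw [map_zero] at hδ
        obtain ⟨τ, -, hτ⟩ := Finset.prod_eq_zero_iff.1 hδ.symm
        rw [smul_eq_zero_iff_eq, sub_eq_zero] at hτ
        exact hb hτ
      · rw [hδ]
        have := Finset.dvd_prod_of_mem (fun τ : Ω ≃ₐ[k] Ω => τ • (σ • b - b))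
          (Finset.mem_univ (1 : Ω ≃ₐ[k] Ω))
        simpa using this
  choose b δ hbδ using hb
  -- specialise
  obtain ⟨ev, hev, ha1, ha2⟩ := hspec
    (fun D : {D : Subgroup (Ω ≃ₐ[k] Ω) // D ≠ ⊤} => (y D : Ω))
    (fun D => hyint D) (fun D => (hy D D.2).2)
    (∏ σ ∈ Finset.univ.filter (fun σ : Ω ≃ₐ[k] Ω => σ ≠ 1), δ σ)
    (Finset.prod_ne_zero_iff.2 fun σ hσ => (hbδ σ (Finset.mem_filter.1 hσ).2).1)
  rw [map_prod, Finset.prod_ne_zero_iff] at ha1
  have hfsB : FaithfulSMul A B := by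
    rw [faithfulSMul_iff_algebraMap_injective]
    have h1 : Function.Injective (algebraMap A Ω) := by
      rw [IsScalarTower.algebraMap_eq A k Ω, RingHom.coe_comp]
      exact (algebraMap k Ω).injective.comp (IsFractionRing.injective A k)
    rw [IsScalarTower.algebraMap_eq A B Ω, RingHom.coe_comp] at h1
    exact h1.of_comp
  refine specialization_general ev hev y (fun D hD => (hy D hD).1) g
    (fun D _ => minpoly.monic (hyint D))
    (fun D _ => ?_) (fun D hD z => ha2 ⟨D, hD⟩ z) (fun σ hσ => ⟨b σ, δ σ, ?_, (hbδ σ hσ).2⟩)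
  · have h1 := minpoly.aeval A (y D : Ω)
    have h2 := aeval_algebraMap_apply Ω (y D) (g D)
    apply IsFractionRing.injective B Ω
    rw [← h2, map_zero]
    exact h1
  · exact ha1 σ (Finset.mem_filter.2 ⟨Finset.mem_univ _, hσ⟩)

end Pool.Agent.Common_HIT
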