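import Mathlib
import Pool.Agent.Common_HIT.Dec
import Pool.Agent.Common_HIT.SpecAux

/-!
# Hilbert's irreducibility theorem in two parameters
-/

set_option autoImplicit false

open Polynomial

namespace Pool.Agent.Common_HIT

/-- Specialisation of the inner variable. -/
noncomputable def sp (a : ℤ) : ℤ[X][X] →+* ℤ[X] := mapRingHom (evalRingHom a)

/-- `ℤ[X][X] → ℚ[X][X]`. -/
noncomputable def rat2 : ℤ[X][X] →+* ℚ[X][X] := mapRingHom (mapRingHom (Int.castRingHom ℚ))

/-- The two-parameter version of admissibility. -/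
structure Admissible2 (g : ℤ[X][X][X]) : Prop where
  monic : g.Monic
  no_root : ∀ P : ℚ[X][X], (g.map rat2).eval P ≠ 0
  sep : ∃ (U V : ℤ[X][X][X]) (r : ℤ[X][X]), r ≠ 0 ∧ U * g + V * derivative g = C r

theorem rat2_sp (a : ℤ) (r : ℤ[X][X]) :
    (rat2 r).map (evalRingHom (a : ℚ)) = (sp a r).map (Int.castRingHom ℚ) := by
  have h : (mapRingHom (evalRingHom (a : ℚ))).comp rat2 =
      (mapRingHom (Int.castRingHom ℚ)).comp (sp a) := by
    refine Polynomial.ringHom_ext' ?_ ?_
    · refine Polynomial.ringHom_ext' (RingHom.ext_int _ _) ?_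
      simp [rat2, sp]
    · simp [rat2, sp]
  exact RingHom.congr_fun h r

/-- A degree bound for roots. -/
theorem natDegree_root_le {g : ℚ[X][X]} (hg : g.Monic) (N : ℕ)
    (hN : ∀ j, (g.coeff j).natDegree ≤ N) (P : ℚ[X]) (hP : g.eval P = 0) : P.natDegree ≤ N := by
  by_contra hcon
  rw [not_le] at hcon
  have hP0 : P ≠ 0 := by
    rintro rfl
    simp at hcon
  rw [eval_eq_sum_range, Finset.sum_range_succ, hg.coeff_natDegree, one_mul] at hP
  have h1 : P ^ g.natDegree = -∑ j ∈ Finset.range g.natDegree, g.coeff j * P ^ j := by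
    linear_combination hP
  by_cases hd : g.natDegree = 0
  · rw [hd] at h1
    simp at h1
  have h2 : (P ^ g.natDegree).degree < (P ^ g.natDegree).degree := by
    conv_lhs => rw [h1]
    rw [degree_neg]
    refine (degree_sum_le _ _).trans_lt ?_
    rw [Finset.sup_lt_iff (by
      rw [degree_eq_natDegree (pow_ne_zero _ hP0)]; exact WithBot.bot_lt_coe _)]
    intro j hj
    rw [Finset.mem_range] at hj
    rw [degree_pow, degree_mul, degree_pow, degree_eq_natDegree hP0]
    by_cases hc : g.coeff j = 0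
    · rw [hc, degree_zero, WithBot.bot_add, nsmul_eq_mul, ← Nat.cast_mul]
      exact WithBot.bot_lt_coe _
    rw [degree_eq_natDegree hc, nsmul_eq_mul, nsmul_eq_mul]
    norm_cast
    have h3 := hN j
    have h4 : j + 1 ≤ g.natDegree := hj
    calc (g.coeff j).natDegree + j * P.natDegree < P.natDegree + j * P.natDegree := by omega
      _ = (j + 1) * P.natDegree := by ring
      _ ≤ g.natDegree * P.natDegree := Nat.mul_le_mul_right _ h4
  exact lt_irrefl _ h2

theorem exists_coeff_ne {R : Type*} [Semiring R] {p : R[X]} (hp : p ≠ 0) : ∃ j, p.coeff j ≠ 0 := by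
  by_contra hcon
  push Not at hcon
  exact hp (Polynomial.ext hcon)

/-- A rational root of a monic integral polynomial is an integer. -/
theorem exists_int_root {h : ℤ[X]} (hm : h.Monic) (q : ℚ)
    (hq : (h.map (Int.castRingHom ℚ)).eval q = 0) : ∃ z : ℤ, (z : ℚ) = q ∧ h.eval z = 0 := by
  have h1 : IsIntegral ℤ q := ⟨h, hm, by rw [← eval_map]; exact hq⟩
  obtain ⟨z, hz⟩ := IsIntegrallyClosed.isIntegral_iff.1 h1
  refine ⟨z, hz, ?_⟩
  rw [← hz, eval_map] at hq
  have h5 : (algebraMap ℤ ℚ) z = Int.castRingHom ℚ z := rfl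
  rw [h5, eval₂_at_apply, eq_intCast] at hq
  exact_mod_cast hq

/-- Specialising the inner variable. -/
theorem exists_first {ι : Type*} [Finite ι] (g : ι → ℤ[X][X][X]) (hg : ∀ i, Admissible2 (g i))
    (δ : ℤ[X][X]) (hδ : δ ≠ 0) :
    ∃ a : ℤ, sp a δ ≠ 0 ∧ ∀ i, Admissible ((g i).map (sp a)) := by
  classical
  cases nonempty_fintype ι
  -- the degree bound
  have hb : ∀ i, ∃ N : ℕ, ∀ j, ((g i).coeff j).natDegree ≤ N := by
    intro i
    refine ⟨∑ j ∈ (g i).support, ((g i).coeff j).natDegree, fun j => ?_⟩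
    by_cases hj : j ∈ (g i).support
    · exact Finset.single_le_sum (f := fun j => ((g i).coeff j).natDegree)
        (fun _ _ => Nat.zero_le _) hj
    · rw [notMem_support_iff.1 hj]; simp
  choose N0 hN0 using hb
  set N := ∑ i, N0 i with hN
  have hNi : ∀ i j, ((g i).coeff j).natDegree ≤ N := fun i j =>
    (hN0 i j).trans (Finset.single_le_sum (f := N0) (fun _ _ => Nat.zero_le _) (Finset.mem_univ i))
  -- the fibres
  let h : ι → Fin (N + 1) → ℤ[X][X] := fun i b => (g i).map (evalRingHom (C (b : ℤ)))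
  have hm : ∀ i b, (h i b).Monic := fun i b => (hg i).monic.map _
  choose R Q hQ hRQ using fun i b => exists_dec (h i b).natDegree (h i b) (hm i b) le_rfl
  -- interpolation
  let v : Fin (N + 1) → ℚ := fun b => (b : ℕ)
  have hv : Set.InjOn v (Finset.univ : Finset (Fin (N + 1))) := by
    intro b _ b' _ hbb
    have hbb' : ((b : ℕ) : ℚ) = ((b' : ℕ) : ℚ) := hbb
    exact Fin.ext (by exact_mod_cast hbb')
  let Lag : (Fin (N + 1) → ℤ[X]) → ℚ[X][X] := fun c =>
    ∑ b, C ((c b).map (Int.castRingHom ℚ)) * (Lagrange.basis Finset.univ v b).map C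
  have hLag : ∀ c (a : ℤ), (Lag c).map (evalRingHom (a : ℚ)) =
      Lagrange.interpolate Finset.univ v (fun b => (((c b).eval a : ℤ) : ℚ)) := by
    intro c a
    simp only [Lag, Polynomial.map_sum, Polynomial.map_mul, Polynomial.map_C,
      Lagrange.interpolate_apply, Polynomial.map_map]
    refine Finset.sum_congr rfl fun b _ => ?_
    have h1 : (evalRingHom (a : ℚ)).comp C = RingHom.id ℚ := by ext; simp
    rw [h1, Polynomial.map_id]
    congr 2
    rw [coe_evalRingHom, eval_map]
    have h2 : (a : ℚ) = Int.castRingHom ℚ a := rfl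
    rw [h2, eval₂_at_apply]
    simp
  let G : ι → (Fin (N + 1) → ℤ[X]) → ℚ[X][X] := fun i c => ((g i).map rat2).eval (Lag c)
  have hG : ∀ i c, G i c ≠ 0 := fun i c => (hg i).no_root _
  choose jG hjG using fun i c => exists_coeff_ne (hG i c)
  choose εG hεG hεG2 using fun i c => exists_int_mult _ (hjG i c)
  choose U V r hr hUV using fun i => (hg i).sep
  choose jr hjr using fun i => exists_coeff_ne (hr i)
  obtain ⟨jδ, hjδ⟩ := exists_coeff_ne hδ
  -- the tuples
  let T : ι → Finset (Fin (N + 1) → ℤ[X]) := fun i => Fintype.piFinset (R i)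
  let Δ : ℤ[X] := δ.coeff jδ * (∏ i, (r i).coeff (jr i)) * ∏ i, ∏ c ∈ T i, εG i c
  have hΔ : Δ ≠ 0 := by
    refine mul_ne_zero (mul_ne_zero hjδ (Finset.prod_ne_zero_iff.2 fun i _ => hjr i)) ?_
    exact Finset.prod_ne_zero_iff.2 fun i _ => Finset.prod_ne_zero_iff.2 fun c _ => hεG i c
  obtain ⟨a, ha1, ha2⟩ := exists_spec
    (fun x : Σ (i : ι) (b : Fin (N + 1)), {q // q ∈ Q i b} => (x.2.2 : ℤ[X][X]))
    (fun x => hQ x.1 x.2.1 _ x.2.2.2) Δ hΔ
  simp only [Δ, eval_mul, eval_prod] at ha1
  rw [mul_ne_zero_iff, mul_ne_zero_iff, Finset.prod_ne_zero_iff, Finset.prod_ne_zero_iff] at ha1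
  obtain ⟨⟨haδ, har⟩, haG⟩ := ha1
  have hsp : ∀ (w : ℤ[X][X]) (j : ℕ), (w.coeff j).eval (a : ℤ) ≠ 0 → sp a w ≠ 0 := by
    intro w j hw h0
    apply hw
    have := congrArg (fun p => p.coeff j) h0
    simpa [sp] using this
  refine ⟨a, hsp δ jδ haδ, fun i => ⟨(hg i).monic.map _, fun P hP => ?_, ?_⟩⟩
  · -- no rational root
    set g' := (g i).map (sp a) with hg'
    have hg'm : g'.Monic := (hg i).monic.map _
    have hPN : P.natDegree ≤ N := by
      refine natDegree_root_le (g := toRat g') (hg'm.map _) N (fun j => ?_) P hP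
      simp only [toRat, coeff_map, coe_mapRingHom, hg', sp]
      exact natDegree_map_le.trans (natDegree_map_le.trans (hNi i j))
    have hz : ∀ b : Fin (N + 1), ∃ ρ ∈ R i b, ((ρ.eval (a : ℤ) : ℤ) : ℚ) = P.eval (v b) := by
      intro b
      have h1 : (((h i b).map (evalRingHom (a : ℤ))).map (Int.castRingHom ℚ)).eval
          (P.eval (v b)) = 0 := by
        have h2 : ((h i b).map (evalRingHom (a : ℤ))).map (Int.castRingHom ℚ) =
            (toRat g').map (evalRingHom (v b)) := by
          simp only [h, hg', toRat, Polynomial.map_map]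
          congr 1
          refine Polynomial.ringHom_ext' ?_ ?_
          · refine Polynomial.ringHom_ext' (RingHom.ext_int _ _) ?_
            simp [sp]
          · simp [sp, v]
        have h3 := Polynomial.hom_eval₂ (toRat g') (RingHom.id ℚ[X]) (evalRingHom (v b)) P
        have h4 : eval₂ (RingHom.id ℚ[X]) P (toRat g') = 0 := hP
        rw [RingHom.comp_id, h4, map_zero] at h3
        rw [h2, eval_map]
        exact h3.symm
      obtain ⟨z, hz, hz2⟩ := exists_int_root ((hm i b).map _) _ h1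
      have h3 : evalEval (a : ℤ) z (h i b) = 0 := by
        rw [evalEval_eq_eval]; exact hz2
      rcases hRQ i b a z h3 with ⟨ρ, hρ, h4⟩ | ⟨q, hq, h4⟩
      · exact ⟨ρ, hρ, by rw [h4, hz]⟩
      · exact absurd h4 (ha2 ⟨i, b, q, hq⟩ z)
    choose c hc hcP using hz
    have hP2 : P = (Lag c).map (evalRingHom ((a : ℤ) : ℚ)) := by
      rw [hLag]
      refine Lagrange.eq_interpolate_of_eval_eq _ hv ?_ fun b _ => (hcP b).symm
      rw [Finset.card_univ, Fintype.card_fin]
      refine degree_le_natDegree.trans_lt ?_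
      exact_mod_cast Nat.lt_succ_of_le hPN
    have h5 : (G i c).map (evalRingHom ((a : ℤ) : ℚ)) = 0 := by
      have h6 : (G i c).map (evalRingHom ((a : ℤ) : ℚ)) =
          (toRat g').eval ((Lag c).map (evalRingHom ((a : ℤ) : ℚ))) := by
        simp only [G]
        rw [← coe_mapRingHom, ← coe_evalRingHom, ← coe_evalRingHom, coe_evalRingHom,
          coe_evalRingHom, eval_map, hom_eval₂, eval₂_eq_eval_map, coe_mapRingHom]
        congr 1
        simp only [hg', toRat, Polynomial.map_map]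
        congr 1
        refine RingHom.ext fun w => ?_
        simp only [RingHom.coe_comp, Function.comp_apply, coe_mapRingHom]
        exact rat2_sp a w
      rw [h6, ← hP2]; exact hP
    have h6 := congrArg (fun p => p.coeff (jG i c)) h5
    simp only [coeff_map, coe_evalRingHom, coeff_zero] at h6
    refine hεG2 i c a (haG i (Finset.mem_univ _) |> fun h => ?_) h6
    rw [Finset.prod_ne_zero_iff] at h
    exact h c (Fintype.mem_piFinset.2 hc)
  · refine ⟨(U i).map (sp a), (V i).map (sp a), sp a (r i),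
      hsp (r i) (jr i) (har i (Finset.mem_univ _)), ?_⟩
    rw [derivative_map, ← Polynomial.map_mul, ← Polynomial.map_mul, ← Polynomial.map_add, hUV,
      Polynomial.map_C]

/-- The two-parameter specialisation. -/
noncomputable def spTwo (a b : ℤ) : ℤ[X][X] →+* ℤ := (evalRingHom b).comp (sp a)

theorem spTwo_surjective (a b : ℤ) : Function.Surjective (spTwo a b) := fun z =>
  ⟨C (C z), by simp [spTwo, sp]⟩

/-- **Hilbert's irreducibility theorem in two parameters** (absence of integral roots). -/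
theorem exists_spec_two {ι : Type*} [Finite ι] (g : ι → ℤ[X][X][X])
    (hg : ∀ i, Admissible2 (g i)) (δ : ℤ[X][X]) (hδ : δ ≠ 0) :
    ∃ a b : ℤ, spTwo a b δ ≠ 0 ∧ ∀ i, ∀ z : ℤ, ((g i).map (spTwo a b)).eval z ≠ 0 := by
  obtain ⟨a, ha, hadm⟩ := exists_first g hg δ hδ
  obtain ⟨b, hb, hb2⟩ := exists_spec _ hadm (sp a δ) ha
  refine ⟨a, b, hb, fun i z => ?_⟩
  have h1 := hb2 i z
  rw [evalEval_eq_eval, Polynomial.map_map] at h1
  exact h1

theorem charZero_of_isFractionRing_two (k : Type*) [Field k] [Algebra ℤ[X][X] k]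
    [IsFractionRing ℤ[X][X] k] : CharZero k := by
  refine charZero_of_injective_ringHom (f := (algebraMap ℤ[X][X] k).comp (C.comp C)) ?_
  exact (IsFractionRing.injective ℤ[X][X] k).comp (C_injective.comp C_injective)

/-- The embedding of `ℚ[X][X]` into the fraction field of `ℤ[X][X]`. -/
noncomputable def ratHomTwo (k : Type*) [Field k] [Algebra ℤ[X][X] k] [CharZero k] :
    ℚ[X][X] →+* k :=
  eval₂RingHom (eval₂RingHom (algebraMap ℚ k) (algebraMap ℤ[X][X] k (C X)))
    (algebraMap ℤ[X][X] k X)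

theorem ratHomTwo_comp (k : Type*) [Field k] [Algebra ℤ[X][X] k] [CharZero k] :
    (ratHomTwo k).comp rat2 = algebraMap ℤ[X][X] k := by
  refine Polynomial.ringHom_ext' ?_ ?_
  · refine Polynomial.ringHom_ext' (RingHom.ext_int _ _) ?_
    simp [ratHomTwo, rat2]
  · simp [ratHomTwo, rat2]

theorem admissible2_minpoly (k : Type*) [Field k] [Algebra ℤ[X][X] k] [IsFractionRing ℤ[X][X] k]
    (Ω : Type*) [Field Ω] [Algebra k Ω] [Algebra ℤ[X][X] Ω] [IsScalarTower ℤ[X][X] k Ω] (x : Ω)
    (hx : IsIntegral ℤ[X][X] x) (hxk : x ∉ Set.range (algebraMap k Ω)) :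
    Admissible2 (minpoly ℤ[X][X] x) := by
  have : CharZero k := charZero_of_isFractionRing_two k
  have hxk' : IsIntegral k x := hx.tower_top
  have hmap : minpoly k x = (minpoly ℤ[X][X] x).map (algebraMap ℤ[X][X] k) :=
    minpoly.isIntegrallyClosed_eq_field_fractions' k hx
  refine ⟨minpoly.monic hx, fun P hP => ?_, ?_⟩
  · have h1 : (minpoly k x).eval (ratHomTwo k P) = 0 := by
      rw [hmap, ← ratHomTwo_comp k, ← Polynomial.map_map, Polynomial.eval_map, eval₂_hom, hP,
        map_zero]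
    have h2 := Polynomial.degree_eq_one_of_irreducible_of_root (minpoly.irreducible hxk') h1
    exact hxk (minpoly.mem_range_of_degree_eq_one k x h2)
  · obtain ⟨U, V, r, hr, h⟩ := exists_bezout k (q := minpoly ℤ[X][X] x) (by
      rw [← hmap]; exact (minpoly.irreducible hxk').separable)
    exact ⟨U, V, r, hr, h⟩

/-- **Hilbert's irreducibility theorem in two parameters, for Galois extensions**: if `k` is the
fraction field of `ℤ[X][X]` and `Ω/k` is finite Galois, then `Gal(Ω/k)` is a Galois group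
over `ℚ`. -/
theorem exists_galois_two (k Ω : Type) [Field k] [Field Ω] [Algebra ℤ[X][X] k]
    [IsFractionRing ℤ[X][X] k] [Algebra k Ω] [FiniteDimensional k Ω] [IsGalois k Ω] :
    ∃ (L : Type) (_ : Field L) (_ : Algebra ℚ L) (_ : IsGalois ℚ L),
      Nonempty ((Ω ≃ₐ[k] Ω) ≃* (L ≃ₐ[ℚ] L)) := by
  let algΩ : Algebra ℤ[X][X] Ω := ((algebraMap k Ω).comp (algebraMap ℤ[X][X] k)).toAlgebra
  have tower : IsScalarTower ℤ[X][X] k Ω := IsScalarTower.of_algebraMap_eq fun _ => rfl
  refine exists_galois_general ℤ[X][X] k Ω ?_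
  intro ι _ x hx hxk δ hδ
  obtain ⟨a, b, h1, h2⟩ := exists_spec_two (fun i => minpoly ℤ[X][X] (x i))
    (fun i => admissible2_minpoly k Ω (x i) (hx i) (hxk i)) δ hδ
  exact ⟨spTwo a b, spTwo_surjective a b, h1, h2⟩

end Pool.Agent.Common_HIT
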