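import Mathlib
import Pool.Agent.Common_HIT.Two

/-!
# Hilbert's irreducibility theorem in several parameters
-/

set_option autoImplicit false

open Polynomial

namespace Pool.Agent.Common_HIT

/-- Admissibility of a polynomial over a domain. -/
structure Adm {A : Type*} [CommRing A] (g : A[X]) : Prop where
  monic : g.Monic
  no_root : ∀ x : A, g.eval x ≠ 0
  sep : ∃ (U V : A[X]) (r : A), r ≠ 0 ∧ U * g + V * derivative g = C r

/-- The domain `A` is Hilbertian for specialisations to the integers: finitely many admissible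
polynomials stay without integral roots after a suitable surjective specialisation `A → ℤ` which
does not kill a given nonzero element. -/
def HilbZ (A : Type) [CommRing A] : Prop :=
  ∀ (ι : Type) [Finite ι] (g : ι → A[X]), (∀ i, Adm (g i)) → ∀ δ : A, δ ≠ 0 →
    ∃ ev : A →+* ℤ, Function.Surjective ev ∧ ev δ ≠ 0 ∧ ∀ i, ∀ z : ℤ, ((g i).map ev).eval z ≠ 0

theorem hilbZ_int : HilbZ ℤ := by
  intro ι _ g hg δ hδ
  refine ⟨RingHom.id ℤ, fun z => ⟨z, rfl⟩, hδ, fun i z => ?_⟩
  rw [Polynomial.map_id]
  exact (hg i).no_root z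

theorem HilbZ.equiv {A B : Type} [CommRing A] [CommRing B] (e : A ≃+* B) (h : HilbZ A) :
    HilbZ B := by
  intro ι _ g hg δ hδ
  have hadm : ∀ i, Adm ((g i).map (e.symm : B →+* A)) := by
    intro i
    refine ⟨(hg i).monic.map _, fun x hx => ?_, ?_⟩
    · apply (hg i).no_root (e x)
      have h1 : ((g i).map (e.symm : B →+* A)).eval x =
          (e.symm : B →+* A) ((g i).eval (e x)) := by
        rw [eval_map, ← eval₂_at_apply]
        simp
      rw [h1] at hx
      exact (map_eq_zero_iff e.symm e.symm.injective).1 hx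
    · obtain ⟨U, V, r, hr, hUV⟩ := (hg i).sep
      refine ⟨U.map (e.symm : B →+* A), V.map (e.symm : B →+* A), e.symm r, ?_, ?_⟩
      · exact fun h0 => hr ((map_eq_zero_iff e.symm e.symm.injective).1 h0)
      · rw [derivative_map, ← Polynomial.map_mul, ← Polynomial.map_mul, ← Polynomial.map_add, hUV,
          Polynomial.map_C]
        rfl
  have hδ' : e.symm δ ≠ 0 := fun h0 => hδ ((map_eq_zero_iff e.symm e.symm.injective).1 h0)
  obtain ⟨ev, h1, h2, h3⟩ := h ι _ hadm _ hδ'
  refine ⟨ev.comp (e.symm : B →+* A), h1.comp e.symm.surjective, h2, fun i z => ?_⟩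
  rw [← Polynomial.map_map]
  exact h3 i z

/-- An irreducible monic polynomial is linear or admissible. -/
theorem linear_or_adm {A : Type} [CommRing A] [IsDomain A] [IsIntegrallyClosed A] [CharZero A]
    {h : A[X]} (hm : h.Monic) (hirr : Irreducible h) : (∃ ρ : A, h = X - C ρ) ∨ Adm h := by
  let k := FractionRing A
  have hchar : CharZero k := charZero_of_injective_algebraMap (IsFractionRing.injective A k)
  have hirr' : Irreducible (h.map (algebraMap A k)) :=
    (hm.irreducible_iff_irreducible_map_fraction_map).1 hirr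
  by_cases hr : ∃ x : A, h.eval x = 0
  · left
    obtain ⟨x, hx⟩ := hr
    have h1 : (h.map (algebraMap A k)).eval (algebraMap A k x) = 0 := by
      rw [eval_map, eval₂_at_apply, hx, map_zero]
    have h2 := Polynomial.degree_eq_one_of_irreducible_of_root hirr' h1
    have h3 : h.natDegree = 1 := by
      rw [← hm.natDegree_map (algebraMap A k)]
      exact natDegree_eq_of_degree_eq_some h2
    refine ⟨-h.coeff 0, ?_⟩
    have h4 := hm.eq_X_add_C h3
    rw [map_neg, sub_neg_eq_add]
    exact h4
  · right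
    push Not at hr
    obtain ⟨U, V, r, hr0, hUV⟩ := exists_bezout k (q := h) hirr'.separable
    exact ⟨hm, hr, U, V, r, hr0, hUV⟩

/-- Decomposition into linear and admissible factors. -/
theorem dec {A : Type} [CommRing A] [IsDomain A] [IsIntegrallyClosed A] [CharZero A] (n : ℕ) :
    ∀ h : A[X], h.Monic → h.natDegree ≤ n →
    ∃ (R : Finset A) (Q : Finset A[X]), (∀ q ∈ Q, Adm q) ∧
      ∀ (ev : A →+* ℤ) (z : ℤ), (h.map ev).eval z = 0 →
        (∃ ρ ∈ R, ev ρ = z) ∨ ∃ q ∈ Q, (q.map ev).eval z = 0 := by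
  classical
  induction n with
  | zero =>
    intro h hm hn
    have h1 : h = 1 := hm.natDegree_eq_zero.1 (by omega)
    refine ⟨∅, ∅, by simp, fun ev z hz => ?_⟩
    rw [h1] at hz
    simp at hz
  | succ n ih =>
    intro h hm hn
    by_cases hirr : Irreducible h
    · rcases linear_or_adm hm hirr with ⟨ρ, hρ⟩ | hadm
      · refine ⟨{ρ}, ∅, by simp, fun ev z hz => Or.inl ⟨ρ, Finset.mem_singleton_self _, ?_⟩⟩
        rw [hρ] at hz
        simp only [Polynomial.map_sub, map_X, map_C, eval_sub, eval_X, eval_C] at hz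
        linarith
      · exact ⟨∅, {h}, by simpa using hadm,
          fun ev z hz => Or.inr ⟨h, Finset.mem_singleton_self _, hz⟩⟩
    · by_cases h1 : h = 1
      · refine ⟨∅, ∅, by simp, fun ev z hz => ?_⟩
        rw [h1] at hz
        simp at hz
      · rw [hm.irreducible_iff_natDegree'] at hirr
        push Not at hirr
        obtain ⟨f, g, hf, hg, hfg, hdeg⟩ := hirr h1
        rw [Finset.mem_Ioc] at hdeg
        have hd : f.natDegree + g.natDegree = h.natDegree := by
          rw [← hfg, hf.natDegree_mul hg]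
        obtain ⟨R1, Q1, hQ1, h1⟩ := ih f hf (by omega)
        obtain ⟨R2, Q2, hQ2, h2⟩ := ih g hg (by omega)
        refine ⟨R1 ∪ R2, Q1 ∪ Q2, ?_, fun ev z hz => ?_⟩
        · intro q hq
          rcases Finset.mem_union.1 hq with hq | hq
          · exact hQ1 q hq
          · exact hQ2 q hq
        · rw [← hfg, Polynomial.map_mul, eval_mul] at hz
          rcases mul_eq_zero.1 hz with hz | hz
          · rcases h1 ev z hz with ⟨ρ, hρ, h3⟩ | ⟨q, hq, h3⟩
            · exact Or.inl ⟨ρ, Finset.mem_union_left _ hρ, h3⟩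
            · exact Or.inr ⟨q, Finset.mem_union_left _ hq, h3⟩
          · rcases h2 ev z hz with ⟨ρ, hρ, h3⟩ | ⟨q, hq, h3⟩
            · exact Or.inl ⟨ρ, Finset.mem_union_right _ hρ, h3⟩
            · exact Or.inr ⟨q, Finset.mem_union_right _ hq, h3⟩

/-- A common denominator. -/
theorem exists_common_den {κ : Type*} [Fintype κ] (B : κ → ℚ[X]) :
    ∃ (D : ℤ) (L : κ → ℤ[X]), D ≠ 0 ∧
      ∀ b, (L b).map (Int.castRingHom ℚ) = C (D : ℚ) * B b := by
  classical
  choose r hr hA using fun b => IsLocalization.integerNormalization_spec (nonZeroDivisors ℤ) (B b)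
  have hr0 : ∀ b, r b ≠ 0 := fun b => nonZeroDivisors.ne_zero (hr b)
  refine ⟨∏ b, r b, fun b => C (∏ b' ∈ Finset.univ.erase b, r b') *
    IsLocalization.integerNormalization (nonZeroDivisors ℤ) (B b),
    Finset.prod_ne_zero_iff.2 fun b _ => hr0 b, fun b => ?_⟩
  have h1 : (IsLocalization.integerNormalization (nonZeroDivisors ℤ) (B b)).map
      (Int.castRingHom ℚ) = C ((r b : ℤ) : ℚ) * B b := by
    have h2 := hA b
    have h3 : (algebraMap ℤ ℚ) = Int.castRingHom ℚ := rfl
    rw [h3] at h2
    rw [h2, ← Int.cast_smul_eq_zsmul ℚ, smul_eq_C_mul]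
  rw [Polynomial.map_mul, Polynomial.map_C, h1, ← mul_assoc, ← C_mul]
  congr 2
  rw [← Finset.mul_prod_erase Finset.univ r (Finset.mem_univ b)]
  push_cast
  simp only [eq_intCast, Int.cast_prod]
  ring

/-- The induction step, first part: specialising the coefficient ring. -/
theorem exists_first_gen {A : Type} [CommRing A] [IsDomain A] [UniqueFactorizationMonoid A]
    [CharZero A] (hA : HilbZ A) {ι : Type} [Finite ι] (g : ι → A[X][X]) (hg : ∀ i, Adm (g i))
    (δ : A[X]) (hδ : δ ≠ 0) :
    ∃ ev : A →+* ℤ, Function.Surjective ev ∧ δ.map ev ≠ 0 ∧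
      ∀ i, Admissible ((g i).map (mapRingHom ev)) := by
  classical
  cases nonempty_fintype ι
  -- the degree bound
  have hb : ∀ i, ∃ N : ℕ, ∀ j, ((g i).coeff j).natDegree ≤ N := by
    intro i
    refine ⟨∑ j ∈ (g i).support, ((g i).coeff j).natDegree, fun j => ?_⟩
    by_cases hj : j ∈ (g i).support
    · exact Finset.single_le_sum (f := fun j => ((g i).coeff j).natDegree)
        (fun _ _ => Nat.zero_le _) hj
    · rw [notMem_support_iff.1 hj]; simp
  choose N0 hN0 using hb
  set N := ∑ i, N0 i with hN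
  have hNi : ∀ i j, ((g i).coeff j).natDegree ≤ N := fun i j =>
    (hN0 i j).trans (Finset.single_le_sum (f := N0) (fun _ _ => Nat.zero_le _) (Finset.mem_univ i))
  -- the fibres
  let h : ι → Fin (N + 1) → A[X] := fun i b => (g i).map (evalRingHom ((b : ℕ) : A))
  have hm : ∀ i b, (h i b).Monic := fun i b => (hg i).monic.map _
  choose R Q hQ hRQ using fun i b => dec (h i b).natDegree (h i b) (hm i b) le_rfl
  -- interpolation
  let v : Fin (N + 1) → ℚ := fun b => (b : ℕ)
  have hv : Set.InjOn v (Finset.univ : Finset (Fin (N + 1))) := by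
    intro b _ b' _ hbb
    have hbb' : ((b : ℕ) : ℚ) = ((b' : ℕ) : ℚ) := hbb
    exact Fin.ext (by exact_mod_cast hbb')
  obtain ⟨D, L, hD, hL⟩ := exists_common_den fun b => Lagrange.basis Finset.univ v b
  let M : (Fin (N + 1) → A) → A[X] := fun c => ∑ b, C (c b) * (L b).map (Int.castRingHom A)
  let G : ι → (Fin (N + 1) → A) → A[X] := fun i c =>
    ((g i).scaleRoots ((D : ℤ) : A[X])).eval (M c)
  have hDA : ((D : ℤ) : A[X]) ≠ 0 := by exact_mod_cast hD
  have hG : ∀ i c, G i c ≠ 0 := by
    intro i c h0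
    let K := FractionRing A[X]
    have hDK : algebraMap A[X] K ((D : ℤ) : A[X]) ≠ 0 := by
      intro h1
      exact hDA ((IsFractionRing.injective A[X] K) (by rw [h1, map_zero]))
    have h1 := scaleRoots_eval₂_mul (p := g i) (algebraMap A[X] K)
      (algebraMap A[X] K (M c) / algebraMap A[X] K ((D : ℤ) : A[X])) ((D : ℤ) : A[X])
    rw [mul_div_cancel₀ _ hDK] at h1
    have h2 : eval₂ (algebraMap A[X] K) (algebraMap A[X] K (M c))
        ((g i).scaleRoots ((D : ℤ) : A[X])) = 0 := by
      rw [eval₂_at_apply]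
      have : eval (M c) ((g i).scaleRoots ((D : ℤ) : A[X])) = 0 := h0
      rw [this, map_zero]
    rw [h2] at h1
    have h3 : eval₂ (algebraMap A[X] K)
        (algebraMap A[X] K (M c) / algebraMap A[X] K ((D : ℤ) : A[X])) (g i) = 0 := by
      rcases mul_eq_zero.1 h1.symm with h4 | h4
      · exact absurd h4 (pow_ne_zero _ hDK)
      · exact h4
    have h5 : IsIntegral A[X]
        (algebraMap A[X] K (M c) / algebraMap A[X] K ((D : ℤ) : A[X])) :=
      ⟨g i, (hg i).monic, h3⟩
    obtain ⟨y, hy⟩ := IsIntegrallyClosed.isIntegral_iff.1 h5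
    rw [← hy, eval₂_at_apply] at h3
    apply (hg i).no_root y
    exact (IsFractionRing.injective A[X] K) (by rw [h3, map_zero])
  choose jG hjG using fun i c => exists_coeff_ne (hG i c)
  choose U V r hr hUV using fun i => (hg i).sep
  choose jr hjr using fun i => exists_coeff_ne (hr i)
  obtain ⟨jδ, hjδ⟩ := exists_coeff_ne hδ
  -- the tuples
  let T : ι → Finset (Fin (N + 1) → A) := fun i => Fintype.piFinset (R i)
  let Δ : A := δ.coeff jδ * (∏ i, (r i).coeff (jr i)) * ∏ i, ∏ c ∈ T i, (G i c).coeff (jG i c)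
  have hΔ : Δ ≠ 0 := by
    refine mul_ne_zero (mul_ne_zero hjδ (Finset.prod_ne_zero_iff.2 fun i _ => hjr i)) ?_
    exact Finset.prod_ne_zero_iff.2 fun i _ => Finset.prod_ne_zero_iff.2 fun c _ => hjG i c
  obtain ⟨ev, hev, ha1, ha2⟩ := hA (Σ (i : ι) (b : Fin (N + 1)), {q // q ∈ Q i b})
    (fun x => (x.2.2 : A[X])) (fun x => hQ x.1 x.2.1 _ x.2.2.2) Δ hΔ
  simp only [Δ, map_mul, map_prod] at ha1
  rw [mul_ne_zero_iff, mul_ne_zero_iff, Finset.prod_ne_zero_iff, Finset.prod_ne_zero_iff] at ha1
  obtain ⟨⟨haδ, har⟩, haG⟩ := ha1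
  have hsp : ∀ (w : A[X]) (j : ℕ), ev (w.coeff j) ≠ 0 → w.map ev ≠ 0 := by
    intro w j hw h0
    apply hw
    have := congrArg (fun p => p.coeff j) h0
    simpa using this
  refine ⟨ev, hev, hsp δ jδ haδ, fun i => ⟨(hg i).monic.map _, fun P hP => ?_, ?_⟩⟩
  · -- no rational root
    set g' := (g i).map (mapRingHom ev) with hg'
    have hg'm : g'.Monic := (hg i).monic.map _
    have hPN : P.natDegree ≤ N := by
      refine natDegree_root_le (g := toRat g') (hg'm.map _) N (fun j => ?_) P hP
      simp only [toRat, coeff_map, coe_mapRingHom, hg']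
      exact natDegree_map_le.trans (natDegree_map_le.trans (hNi i j))
    have hz : ∀ b : Fin (N + 1), ∃ ρ ∈ R i b, ((ev ρ : ℤ) : ℚ) = P.eval (v b) := by
      intro b
      have h1 : (((h i b).map ev).map (Int.castRingHom ℚ)).eval (P.eval (v b)) = 0 := by
        have h2 : ((h i b).map ev).map (Int.castRingHom ℚ) =
            (toRat g').map (evalRingHom (v b)) := by
          simp only [h, hg', toRat, Polynomial.map_map]
          congr 1
          refine Polynomial.ringHom_ext' ?_ ?_
          · ext x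
            simp
          · simp [v]
        have h3 := Polynomial.hom_eval₂ (toRat g') (RingHom.id ℚ[X]) (evalRingHom (v b)) P
        have h4 : eval₂ (RingHom.id ℚ[X]) P (toRat g') = 0 := hP
        rw [RingHom.comp_id, h4, map_zero] at h3
        rw [h2, eval_map]
        exact h3.symm
      obtain ⟨z, hz, hz2⟩ := exists_int_root ((hm i b).map _) _ h1
      rcases hRQ i b ev z hz2 with ⟨ρ, hρ, h4⟩ | ⟨q, hq, h4⟩
      · exact ⟨ρ, hρ, by rw [h4, hz]⟩
      · exact absurd h4 (ha2 ⟨i, b, q, hq⟩ z)
    choose c hc hcP using hz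
    -- the interpolation polynomial
    let Φ : A[X] →+* ℚ[X] := (mapRingHom (Int.castRingHom ℚ)).comp (mapRingHom ev)
    have hΦD : Φ ((D : ℤ) : A[X]) = C (D : ℚ) := by
      rw [map_intCast]
      simp
    have hΦM : Φ (M c) = Φ ((D : ℤ) : A[X]) * P := by
      have hP2 : P = Lagrange.interpolate Finset.univ v (fun b => ((ev (c b) : ℤ) : ℚ)) := by
        refine Lagrange.eq_interpolate_of_eval_eq _ hv ?_ fun b _ => (hcP b).symm
        rw [Finset.card_univ, Fintype.card_fin]
        refine degree_le_natDegree.trans_lt ?_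
        exact_mod_cast Nat.lt_succ_of_le hPN
      rw [hΦD]
      conv_rhs => rw [hP2]
      rw [Lagrange.interpolate_apply, Finset.mul_sum]
      simp only [M, map_sum, map_mul]
      refine Finset.sum_congr rfl fun b _ => ?_
      have e1 : Φ (C (c b)) = C ((ev (c b) : ℤ) : ℚ) := by simp [Φ]
      have e2 : Φ ((L b).map (Int.castRingHom A)) = C (D : ℚ) * Lagrange.basis Finset.univ v b := by
        rw [← hL b]
        simp only [Φ, RingHom.comp_apply, coe_mapRingHom, Polynomial.map_map]
        congr 1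
        exact RingHom.ext_int _ _
      rw [e1, e2]
      ring
    have h5 : Φ (G i c) = 0 := by
      have h6 := scaleRoots_eval₂_mul (p := g i) Φ P ((D : ℤ) : A[X])
      rw [← hΦM] at h6
      have h7 : eval₂ Φ P (g i) = 0 := by
        have h8 : (toRat g').eval P = eval₂ Φ P (g i) := by
          simp only [toRat, hg', Polynomial.map_map]
          rw [eval_map]
        rw [← h8]
        exact hP
      rw [h7, mul_zero, eval₂_at_apply] at h6
      exact h6
    have h6 : ev ((G i c).coeff (jG i c)) = 0 := by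
      have h7 := congrArg (fun p => p.coeff (jG i c)) h5
      simp only [Φ, RingHom.comp_apply, coe_mapRingHom, coeff_map, coeff_zero, eq_intCast] at h7
      exact_mod_cast h7
    have h7 := haG i (Finset.mem_univ _)
    rw [Finset.prod_ne_zero_iff] at h7
    exact h7 c (Fintype.mem_piFinset.2 hc) h6
  · refine ⟨(U i).map (mapRingHom ev), (V i).map (mapRingHom ev), (r i).map ev,
      hsp (r i) (jr i) (har i (Finset.mem_univ _)), ?_⟩
    rw [derivative_map, ← Polynomial.map_mul, ← Polynomial.map_mul, ← Polynomial.map_add, hUV,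
      Polynomial.map_C]
    rfl

/-- The induction step. -/
theorem HilbZ.polynomial {A : Type} [CommRing A] [IsDomain A] [UniqueFactorizationMonoid A]
    [CharZero A] (hA : HilbZ A) : HilbZ A[X] := by
  intro ι _ g hg δ hδ
  obtain ⟨ev, hev, h1, h2⟩ := exists_first_gen hA g hg δ hδ
  obtain ⟨a, h3, h4⟩ := exists_spec _ h2 (δ.map ev) h1
  refine ⟨(evalRingHom (a : ℤ)).comp (mapRingHom ev), ?_, h3, fun i z => ?_⟩
  · intro z
    obtain ⟨x, hx⟩ := hev z
    exact ⟨C x, by simp [hx]⟩
  · have h5 := h4 i z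
    rw [evalEval_eq_eval, Polynomial.map_map] at h5
    exact h5

/-- The integral polynomial rings in finitely many variables are Hilbertian for specialisations to
the integers. -/
theorem hilbZ_mvPolynomial (s : ℕ) : HilbZ (MvPolynomial (Fin s) ℤ) := by
  induction s with
  | zero => exact hilbZ_int.equiv (MvPolynomial.isEmptyRingEquiv ℤ (Fin 0)).symm
  | succ s ih => exact ih.polynomial.equiv (MvPolynomial.finSuccEquiv ℤ s).toRingEquiv.symm

/-- Minimal polynomials of integral elements outside the fraction field are admissible. -/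
theorem adm_minpoly {A : Type} [CommRing A] [IsDomain A] [IsIntegrallyClosed A] [CharZero A]
    (k : Type*) [Field k] [Algebra A k] [IsFractionRing A k]
    (Ω : Type*) [Field Ω] [Algebra k Ω] [Algebra A Ω] [IsScalarTower A k Ω] (x : Ω)
    (hx : IsIntegral A x) (hxk : x ∉ Set.range (algebraMap k Ω)) : Adm (minpoly A x) := by
  have hchar : CharZero k := charZero_of_injective_algebraMap (IsFractionRing.injective A k)
  have hxk' : IsIntegral k x := hx.tower_top
  have hmap : minpoly k x = (minpoly A x).map (algebraMap A k) :=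
    minpoly.isIntegrallyClosed_eq_field_fractions' k hx
  refine ⟨minpoly.monic hx, fun y hy => ?_, ?_⟩
  · have h1 : (minpoly k x).eval (algebraMap A k y) = 0 := by
      rw [hmap, eval_map, eval₂_at_apply, hy, map_zero]
    have h2 := Polynomial.degree_eq_one_of_irreducible_of_root (minpoly.irreducible hxk') h1
    exact hxk (minpoly.mem_range_of_degree_eq_one k x h2)
  · obtain ⟨U, V, r, hr, h⟩ := exists_bezout k (q := minpoly A x) (by
      rw [← hmap]; exact (minpoly.irreducible hxk').separable)
    exact ⟨U, V, r, hr, h⟩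

/-- **Hilbert's irreducibility theorem for Galois extensions**, abstract form. -/
theorem HilbZ.exists_galois {A : Type} [CommRing A] [IsDomain A] [IsIntegrallyClosed A]
    [CharZero A] (hA : HilbZ A) (k Ω : Type) [Field k] [Field Ω] [Algebra A k]
    [IsFractionRing A k] [Algebra k Ω] [FiniteDimensional k Ω] [IsGalois k Ω] :
    ∃ (L : Type) (_ : Field L) (_ : Algebra ℚ L) (_ : IsGalois ℚ L),
      Nonempty ((Ω ≃ₐ[k] Ω) ≃* (L ≃ₐ[ℚ] L)) := by
  let algΩ : Algebra A Ω := ((algebraMap k Ω).comp (algebraMap A k)).toAlgebra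
  have tower : IsScalarTower A k Ω := IsScalarTower.of_algebraMap_eq fun _ => rfl
  refine exists_galois_general A k Ω ?_
  intro ι _ x hx hxk δ hδ
  exact hA ι (fun i => minpoly A (x i)) (fun i => adm_minpoly k Ω (x i) (hx i) (hxk i)) δ hδ

/-- **Hilbert's irreducibility theorem in several parameters, for Galois extensions**: a Galois
group over the rational function field in `s` variables is a Galois group over `ℚ`. -/
theorem exists_galois_mvPolynomial (s : ℕ) (k Ω : Type) [Field k] [Field Ω]
    [Algebra (MvPolynomial (Fin s) ℤ) k] [IsFractionRing (MvPolynomial (Fin s) ℤ) k] [Algebra k Ω]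
    [FiniteDimensional k Ω] [IsGalois k Ω] :
    ∃ (L : Type) (_ : Field L) (_ : Algebra ℚ L) (_ : IsGalois ℚ L),
      Nonempty ((Ω ≃ₐ[k] Ω) ≃* (L ≃ₐ[ℚ] L)) := by
  have : CharZero (MvPolynomial (Fin s) ℤ) := inferInstance
  exact (hilbZ_mvPolynomial s).exists_galois k Ω

end Pool.Agent.Common_HIT
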